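import Pool.Agent.H960Z.TM.Stage1

/-! The multi-stage modular test as a multi-stack machine. -/

set_option autoImplicit false

namespace Pool.Agent.H120Z.WP

open Function Pool.Agent.H960Z.TM Matrix

def Goal (m : ℕ) (Pr : List (Fin m × Bool) → Prop) : Prop :=
  ∃ (K : Type) (_ : DecidableEq K) (_ : Fintype K)
    (Γ : K → Type) (_ : ∀ k, Fintype (Γ k))
    (Λ : Type) (_ : Inhabited Λ) (_ : Fintype Λ)
    (σ : Type) (_ : Inhabited σ) (_ : Fintype σ)
    (M : Λ → Turing.TM2.Stmt Γ Λ σ) (k0 : K) (enc : Fin m × Bool → Γ k0)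
    (acc : σ → Bool) (T : List (Fin m × Bool) → ℕ) (C : ℕ),
    Function.Injective enc ∧
    (∀ w : List (Fin m × Bool),
      (∃ c : Turing.TM2.Cfg Γ Λ σ,
        (fun d : Option (Turing.TM2.Cfg Γ Λ σ) => d.bind (Turing.TM2.step M))^[T w]
            (some (Turing.TM2.init k0 (w.map enc) : Turing.TM2.Cfg Γ Λ σ)) = some c ∧
          c.l = none ∧ (acc c.var = true ↔ Pr w)) ∧
      (∀ t < T w, ∀ c : Turing.TM2.Cfg Γ Λ σ,
        (fun d : Option (Turing.TM2.Cfg Γ Λ σ) => d.bind (Turing.TM2.step M))^[t]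
            (some (Turing.TM2.init k0 (w.map enc) : Turing.TM2.Cfg Γ Λ σ)) = some c →
          c.l ≠ none)) ∧
    (∀ n : ℕ, ∑ v : Fin n → Fin m × Bool, T (List.ofFn v) ≤ C * (n + 1) * (2 * m) ^ n)

theorem goal_of {m : ℕ} {K Γ : Type} [DecidableEq K] [Fintype K] [Finite Γ] (Q : Prog K Γ)
    (k0 bad : K) (enc : Fin m × Bool → Γ) (hi : Injective enc)
    (Pr : List (Fin m × Bool) → Prop) (c0 C : ℕ) (c : List (Fin m × Bool) → ℕ)
    (h : ∀ w, Tri Q (update (fun _ => []) k0 (w.map enc)) (fun s => s bad = [] ↔ Pr w)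
      (c0 * (w.length + 1) + c w))
    (hc : ∀ n : ℕ, ∑ v : Fin n → Fin m × Bool, c (List.ofFn v) ≤ C * (n + 1) * (2 * m) ^ n) :
    Goal m Pr := by
  letI : Fintype Γ := Fintype.ofFinite _
  obtain ⟨Λ, i1, i2, M, acc, T, h1, h2⟩ := machine_of Q k0 bad enc Pr _ h
  refine ⟨K, inferInstance, inferInstance, fun _ => Γ,
    fun _ => inferInstance, Λ, i1, i2, Option Γ, inferInstance,
    inferInstance, M, k0, enc, acc, T, c0 + 1 + C, hi, h1, fun n => ?_⟩
  calc ∑ v : Fin n → Fin m × Bool, T (List.ofFn v)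
      ≤ ∑ v : Fin n → Fin m × Bool, ((c0 + 1) * (n + 1) + c (List.ofFn v)) := by
        refine Finset.sum_le_sum fun v _ => (h2 _).trans ?_
        rw [List.length_ofFn, add_mul c0]
        omega
    _ = (c0 + 1) * (n + 1) * (2 * m) ^ n + ∑ v : Fin n → Fin m × Bool, c (List.ofFn v) := by
        rw [Finset.sum_add_distrib]
        simp [mul_comm]
    _ ≤ _ := by
        have := hc n
        rw [add_mul (c0 + 1) C, add_mul ((c0 + 1) * (n + 1))]
        omega

theorem Tri.loop_cons {K Γ : Type} [DecidableEq K] {k : K} {f : Γ → Prog K Γ} {s : St K Γ}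
    {Q : St K Γ → Prop} {c : ℕ} (x : Γ) (l : List Γ) (a b : ℕ) (hk : s k = x :: l)
    (hc : a + b + 1 ≤ c) (h : Tri (f x) (update s k l) (fun s' => Tri (.loop k f) s' Q b) a) :
    Tri (.loop k f) s Q c := by
  obtain ⟨s', t, h1, h2, s'', t', h3, h4, h5⟩ := h
  exact ⟨s'', t + t' + 1, .loop_cons hk h1 h3, by omega, h5⟩

theorem Tri.loop_nil {K Γ : Type} [DecidableEq K] {k : K} {f : Γ → Prog K Γ} {s : St K Γ}
    {Q : St K Γ → Prop} (hk : s k = []) (h : Q s) : Tri (.loop k f) s Q 1 :=
  ⟨s, 1, .loop_nil hk, le_rfl, h⟩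

inductive R : Type
  | inp | sv | num | tmp | car | kk | bud | bad
  deriving DecidableEq, Fintype

abbrev V (I : Type) (E : ℕ) : Type := {a : I → ℤ // ∀ i, |a i| ≤ E}

instance {I : Type} [Finite I] (E : ℕ) : Finite (V I E) := by
  classical
  letI := Fintype.ofFinite I
  have : {a : I → ℤ | ∀ i, |a i| ≤ E}.Finite :=
    (Set.finite_Icc (fun _ : I => (-E : ℤ)) (fun _ => (E : ℤ))).subset fun a ha =>
      ⟨fun i => (abs_le.1 (ha i)).1, fun i => (abs_le.1 (ha i)).2⟩
  exact this

abbrev Sy (X I : Type) (E : ℕ) : Type := Option X × V I E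

variable {X I : Type} [Fintype I] {E : ℕ}

open Classical in
noncomputable def emb (a : I → ℤ) : Sy X I E :=
  (none, if h : ∀ i, |a i| ≤ E then ⟨a, h⟩ else ⟨0, by simp⟩)

theorem emb_val {a : I → ℤ} (h : ∀ i, |a i| ≤ E) : (emb a : Sy X I E).2.1 = a := by
  simp [emb, h]

def rdv : Option (Sy X I E) → I → ℤ
  | none => 0
  | some g => g.2.1

def encX (x : X) : Sy X I E := (some x, ⟨0, by simp⟩)

omit [Fintype I] in
theorem encX_inj : Injective (encX : X → Sy X I E) := by
  intro x y h
  simpa [encX] using h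

def stepL (b : ℤ) (A : Matrix I I ℤ) : List (I → ℤ) → (I → ℤ) → List (I → ℤ)
  | [], _ => []
  | a :: ds, c => (fun i => (A *ᵥ a + c) i % b) :: stepL b A ds (fun i => (A *ᵥ a + c) i / b)

def Dig (b : ℤ) (ds : List (I → ℤ)) : Prop := ∀ a ∈ ds, ∀ i, 0 ≤ a i ∧ a i < b

theorem stepL_length (b : ℤ) (A : Matrix I I ℤ) (ds : List (I → ℤ)) :
    ∀ c, (stepL b A ds c).length = ds.length := by
  induction ds with
  | nil => intro c; rfl
  | cons a ds ih => intro c; simp [stepL, ih]

theorem stepL_dig {b : ℤ} (hb : 0 < b) (A : Matrix I I ℤ) (ds : List (I → ℤ)) :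
    ∀ c, Dig b (stepL b A ds c) := by
  induction ds with
  | nil => intro c a ha; simp [stepL] at ha
  | cons a ds ih =>
    intro c a' ha
    simp only [stepL, List.mem_cons] at ha
    rcases ha with rfl | ha
    · exact fun i => ⟨Int.emod_nonneg _ hb.ne', Int.emod_lt_of_pos _ hb⟩
    · exact ih _ a' ha

theorem carry_bound {b : ℤ} (hb : 0 < b) (A : Matrix I I ℤ) (hA : ∀ i, ∑ j, |A i j| ≤ E)
    (a c : I → ℤ) (ha : ∀ i, 0 ≤ a i ∧ a i < b) (hc : ∀ i, |c i| ≤ E) (i : I) :
    |(A *ᵥ a + c) i / b| ≤ E := by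
  have h1 : |(A *ᵥ a) i| ≤ E * (b - 1) := by
    calc |(A *ᵥ a) i| = |∑ j, A i j * a j| := rfl
      _ ≤ ∑ j, |A i j * a j| := Finset.abs_sum_le_sum_abs _ _
      _ ≤ ∑ j, |A i j| * (b - 1) := by
          refine Finset.sum_le_sum fun j _ => ?_
          rw [abs_mul, abs_of_nonneg (ha j).1]
          have := (ha j).2
          gcongr
          omega
      _ ≤ E * (b - 1) := by
          rw [← Finset.sum_mul]
          have := hA i
          gcongr
          omega
  have h2 : |(A *ᵥ a + c) i| ≤ E * b := by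
    have := abs_add_le ((A *ᵥ a) i) (c i)
    have := hc i
    simp only [Pi.add_apply]
    linarith
  rw [abs_le] at h2 ⊢
  exact ⟨Int.le_ediv_of_mul_le hb (by linarith), Int.ediv_le_of_le_mul hb h2.2⟩

/-- machine states with an empty save register -/
def S (i n t c k u e : List (Sy X I E)) : St R (Sy X I E)
  | .inp => i
  | .sv => []
  | .num => n
  | .tmp => t
  | .car => c
  | .kk => k
  | .bud => u
  | .bad => e

section upd
omit [Fintype I]
variable (i n t c k u e l : List (Sy X I E))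
@[simp] theorem S_inp : S i n t c k u e .inp = i := rfl
@[simp] theorem S_sv : S i n t c k u e .sv = [] := rfl
@[simp] theorem S_num : S i n t c k u e .num = n := rfl
@[simp] theorem S_tmp : S i n t c k u e .tmp = t := rfl
@[simp] theorem S_car : S i n t c k u e .car = c := rfl
@[simp] theorem S_kk : S i n t c k u e .kk = k := rfl
@[simp] theorem S_bud : S i n t c k u e .bud = u := rfl
@[simp] theorem S_bad : S i n t c k u e .bad = e := rfl
@[simp] theorem U_num : update (S i n t c k u e) .num l = S i l t c k u e := by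
  funext r; cases r <;> simp
@[simp] theorem U_tmp : update (S i n t c k u e) .tmp l = S i n l c k u e := by
  funext r; cases r <;> simp
@[simp] theorem U_car : update (S i n t c k u e) .car l = S i n t l k u e := by
  funext r; cases r <;> simp
@[simp] theorem U_kk : update (S i n t c k u e) .kk l = S i n t c l u e := by
  funext r; cases r <;> simp
@[simp] theorem U_bud : update (S i n t c k u e) .bud l = S i n t c k l e := by
  funext r; cases r <;> simp
@[simp] theorem U_bad : update (S i n t c k u e) .bad l = S i n t c k u l := by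
  funext r; cases r <;> simp
end upd

noncomputable def body (b : ℤ) (A : Matrix I I ℤ) (a : Sy X I E) : Prog R (Sy X I E) :=
  .pop .car fun c => .seq (.push .car (emb fun i => (A *ᵥ a.2.1 + rdv c) i / b))
    (.push .tmp (emb fun i => (A *ᵥ a.2.1 + rdv c) i % b))

theorem body_loop {b : ℤ} (hb : 0 < b) (hbE : b ≤ E) (A : Matrix I I ℤ)
    (hA : ∀ i, ∑ j, |A i j| ≤ E) (i k u e : List (Sy X I E)) (ds : List (I → ℤ)) :
    ∀ (t : List (Sy X I E)) (c : I → ℤ), Dig b ds → (∀ i, |c i| ≤ E) →
      Tri (.loop .num (body b A)) (S i (ds.map emb) t [emb c] k u e)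
        (fun s => ∃ g, s = S i [] (((stepL b A ds c).map emb).reverse ++ t) [g] k u e)
        (4 * ds.length + 1) := by
  induction ds with
  | nil => intro t c _ _; exact Tri.loop_nil rfl ⟨emb c, by simp [stepL]⟩
  | cons a ds ih =>
    intro t c hd hc
    have ha := hd a (by simp)
    have ha' : ∀ i, |a i| ≤ E := fun i => by
      rw [abs_of_nonneg (ha i).1]; linarith [(ha i).2]
    have := ih (emb (fun i => (A *ᵥ a + c) i % b) :: t) (fun i => (A *ᵥ a + c) i / b)
      (fun a' h => hd a' (by simp [h])) (carry_bound hb A hA a c ha hc)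
    refine Tri.loop_cons (emb a) (ds.map emb) 3 (4 * ds.length + 1) rfl (by simp; omega) ?_
    refine Tri.pop (a := 2) (Tri.seq (a := 1) (b := 1) (Tri.push (Tri.push ?_)))
    simp only [U_num, S_car, List.head?_cons, rdv, emb_val ha', emb_val hc, List.tail_cons, U_car,
      S_tmp, U_tmp]
    simpa [stepL] using this

noncomputable def pass (b : ℤ) (A : Matrix I I ℤ) : Prog R (Sy X I E) :=
  .seq (.push .car (emb 0)) (.seq (.loop .num (body b A)) (.seq (clear .car) (move .tmp .num)))

theorem pass_ok {b : ℤ} (hb : 0 < b) (hbE : b ≤ E) (A : Matrix I I ℤ)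
    (hA : ∀ i, ∑ j, |A i j| ≤ E) (i k u e : List (Sy X I E)) (ds : List (I → ℤ)) (hd : Dig b ds) :
    Ok (pass b A) (S i (ds.map emb) [] [] k u e) (S i ((stepL b A ds 0).map emb) [] [] k u e)
      (6 * ds.length + 6) := by
  have := body_loop hb hbE A hA i k u e ds [] 0 hd (by simp)
  refine (Tri.seq (a := 1) (b := (4 * ds.length + 1) + (3 + (2 * ds.length + 1))) (Tri.push ?_)).cost
    (by omega)
  simp only [S_car, U_car]
  refine Tri.seq' this ?_
  rintro _ ⟨g, rfl⟩
  refine (Ok.seq (clear_ok _ _) (move_ok (by simp) _)).eq (by simp) ?_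
  simp [stepL_length]

section stage

variable (b : ℤ) (L : X → Matrix I I ℤ) (e0 : I → ℤ) (ok : (I → ℤ) → Prop)

def dig (k : ℕ) (w : List X) : List (I → ℤ) :=
  w.foldl (fun ds x => stepL b (L x) ds 0) (e0 :: List.replicate (k - 1) 0)

def Pass (k : ℕ) (w : List X) : Prop := ∀ a ∈ dig b L e0 k w, ok a

open Classical in
noncomputable def chk : Prog R (Sy X I E) :=
  .loop .num fun a => if ok a.2.1 then .skip else .push .bad (emb 0)

theorem chk_ok (hbE : b ≤ E) (i k u : List (Sy X I E)) (ds : List (I → ℤ)) :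
    ∀ e : List (Sy X I E), Dig b ds → Tri (chk ok) (S i (ds.map emb) [] [] k u e)
      (fun s => ∃ e', s = S i [] [] [] k u e' ∧ (e' = [] ↔ e = [] ∧ ∀ a ∈ ds, ok a))
      (2 * ds.length + 1) := by
  induction ds with
  | nil => intro e _; exact Tri.loop_nil rfl ⟨e, rfl, by simp⟩
  | cons a ds ih =>
    intro e hd
    have ha := hd a (by simp)
    have ha' : ∀ i, |a i| ≤ E := fun i => by
      rw [abs_of_nonneg (ha i).1]; linarith [(ha i).2]
    refine Tri.loop_cons (emb a) (ds.map emb) 1 (2 * ds.length + 1) rfl (by simp; omega) ?_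
    rw [emb_val ha']
    by_cases h : ok a
    · rw [if_pos h]
      refine Tri.skip ?_
      simp only [U_num]
      refine (ih e (fun a' h => hd a' (by simp [h]))).post ?_
      rintro _ ⟨e', rfl, h'⟩
      exact ⟨e', rfl, by simp [h', h]⟩
    · rw [if_neg h]
      refine Tri.push ?_
      simp only [U_num, S_bad, U_bad]
      refine (ih _ (fun a' h => hd a' (by simp [h]))).post ?_
      rintro _ ⟨e', rfl, h'⟩
      exact ⟨e', rfl, by simp [h', h]⟩

noncomputable def stage : Prog R (Sy X I E) :=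
  .seq (each .kk .sv fun _ => .push .num (emb 0))
  (.seq (.pop .num fun _ => .push .num (emb e0))
  (.seq (each .inp .sv fun x => pass b (olift L 0 x.1))
  (.seq (chk ok)
  (.seq (each .kk .sv fun _ => .seq (.push .tmp (emb 0)) (.pop .bud fun _ => .skip))
  (.seq (move .tmp .kk)
    (.pop .bad fun o => if o.isNone then .skip else .seq (.push .bad (emb 0)) (clear .bud)))))))

theorem foldl_enc (w : List X) : ∀ ds : List (I → ℤ),
    (w.map (encX : X → Sy X I E)).foldl (fun ds x => stepL b (olift L 0 x.1) ds 0) ds =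
      w.foldl (fun ds x => stepL b (L x) ds 0) ds := by
  induction w with
  | nil => intro ds; rfl
  | cons x w ih => intro ds; simp only [List.map_cons, List.foldl_cons, ih]; rfl

theorem stage_ok (hb : 0 < b) (hbE : b ≤ E) (hL : ∀ x i, ∑ j, |L x i j| ≤ E)
    (he : ∀ i, 0 ≤ e0 i ∧ e0 i < b) (w : List X) (k β : ℕ) (hk : 1 ≤ k) :
    (Pass b L e0 ok k w → Ok (stage b L e0 ok)
      (S (w.map encX) [] [] [] (List.replicate k (emb 0 : Sy X I E)) (List.replicate β (emb 0)) [])
      (S (w.map encX) [] [] [] (List.replicate (2 * k) (emb 0))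
        (List.replicate (β - k) (emb 0)) []) (30 * ((w.length + 1) * k))) ∧
    (¬ Pass b L e0 ok k w → Tri (stage b L e0 ok)
      (S (w.map encX) [] [] [] (List.replicate k (emb 0 : Sy X I E)) (List.replicate β (emb 0)) [])
      (fun s => s .bud = [] ∧ s .bad ≠ []) (30 * ((w.length + 1) * k) + 2 * β)) := by
  set z : Sy X I E := emb 0 with hz
  set inp : List (Sy X I E) := w.map encX with hinp
  have h1 := Ok.each (k := R.kk) (sv := .sv) (f := fun _ => .push .num z) (by simp) (by simp)
    (by simp) (List.replicate k z)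
    (fun j => S inp (List.replicate j z) [] [] (List.replicate k z) (List.replicate β z) []) 1
    (fun j _ => (Ok.push _ _ _).eq (by simp [List.replicate_succ]) le_rfl) rfl rfl
  simp only [List.length_replicate, List.replicate_zero] at h1
  have h2 : Ok (.pop .num fun _ => .push .num (emb e0))
      (S inp (List.replicate k z) [] [] (List.replicate k z) (List.replicate β z) [])
      (S inp ((e0 :: List.replicate (k - 1) 0).map emb) [] [] (List.replicate k z)
        (List.replicate β z) []) 2 :=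
    (Ok.pop (Ok.push _ _ _)).eq (by simp [hz]) le_rfl
  have hL' : ∀ (o : Option X) i, ∑ j, |olift L 0 o i j| ≤ E := by
    intro o i
    cases o
    · simp [olift]
    · exact hL _ _
  obtain ⟨h3, hd, hlen⟩ := each_fold (k := R.inp) (sv := .sv)
    (f := fun x => pass b (olift L 0 x.1)) (by simp)
    (fun x => by simp [pass, body, clear, move]) (fun x => by simp [pass, body, clear, move]) inp
    (fun ds => S inp (ds.map emb) [] [] (List.replicate k z) (List.replicate β z) [])
    (fun ds x => stepL b (olift L 0 x.1) ds 0) (e0 :: List.replicate (k - 1) 0)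
    (fun _ ds => Dig b ds ∧ ds.length = k) (6 * k + 6) (by
      refine ⟨fun a ha => ?_, by simp; omega⟩
      rcases List.mem_cons.1 ha with rfl | ha
      · exact he
      · rw [List.eq_of_mem_replicate ha]; simpa using fun _ => hb) (by
      rintro i hi ds ⟨q1, q2⟩
      exact ⟨⟨stepL_dig hb _ _ _, by rw [stepL_length, q2]⟩,
        q2 ▸ pass_ok hb hbE _ (hL' _) _ _ _ _ ds q1⟩) rfl rfl
  have hfe := foldl_enc (E := E) b L w (e0 :: List.replicate (k - 1) 0)
  rw [← hinp] at hfe
  rw [hfe] at h3 hd hlen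
  change Ok _ _ (S inp ((dig b L e0 k w).map emb) [] [] _ _ []) _ at h3
  change Dig b (dig b L e0 k w) at hd
  change (dig b L e0 k w).length = k at hlen
  have h4 := chk_ok b ok hbE inp (List.replicate k z) (List.replicate β z) _ [] hd
  have h5 : ∀ e', Ok (each .kk .sv fun _ => .seq (.push .tmp z) (.pop .bud fun _ => .skip))
      (S inp [] [] [] (List.replicate k z) (List.replicate β z) e')
      (S inp [] (List.replicate k z) [] (List.replicate k z) (List.replicate (β - k) z) e')
      (k * (3 + 4) + 2) := by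
    intro e'
    have := Ok.each (k := R.kk) (sv := .sv)
      (f := fun _ => .seq (.push .tmp z) (.pop .bud fun _ => .skip)) (by simp) (by simp)
      (by simp) (List.replicate k z)
      (fun j => S inp [] (List.replicate j z) [] (List.replicate k z)
        (List.replicate (β - j) z) e') 3
      (fun j _ => (Ok.seq (Ok.push _ _ _) (Ok.pop (Ok.skip _))).eq
        (by simp [List.replicate_succ, Nat.sub_sub]) le_rfl) rfl rfl
    simpa using this
  have h6 : ∀ e', Ok (move .tmp .kk)
      (S inp [] (List.replicate k z) [] (List.replicate k z) (List.replicate (β - k) z) e')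
      (S inp [] [] [] (List.replicate (2 * k) z) (List.replicate (β - k) z) e') (2 * k + 1) :=
    fun e' => (move_ok (by simp) _).eq (by simp [two_mul]) (by simp)
  have hn : inp.length = w.length := by simp [hinp]
  rw [hlen] at h4
  rw [hn] at h3
  constructor
  · intro hp
    refine (h1.then (h2.then (h3.then (Tri.seq' (b := (k * (3 + 4) + 2) + ((2 * k + 1) + 2))
      h4 ?_)))).cost (by nlinarith)
    rintro _ ⟨e', rfl, h'⟩
    have : e' = [] := h'.2 ⟨rfl, hp⟩
    subst this
    refine (h5 _).then ((h6 _).then (Tri.pop ?_))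
    rw [if_pos (by simp)]
    exact Tri.skip (by simp)
  · intro hp
    refine (h1.then (h2.then (h3.then (Tri.seq'
      (b := (k * (3 + 4) + 2) + ((2 * k + 1) + (1 + (2 * β + 1) + 1))) h4 ?_)))).cost (by nlinarith)
    rintro _ ⟨e', rfl, h'⟩
    have : e' ≠ [] := fun h => hp (h'.1 h).2
    refine (h5 _).then ((h6 _).then (Tri.pop ?_))
    rw [if_neg (by simpa using this)]
    refine (Ok.push _ _ _).then (((clear_ok _ _).tri (by simp)).cost (by simp))

open Classical in
/-- cost of the passed stages -/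
noncomputable def term (β0 : ℕ) (w : List X) (j : ℕ) : ℕ :=
  if Pass b L e0 ok (2 ^ j) w ∧ 2 ^ j ≤ β0 then 70 * ((w.length + 1) * 2 ^ j) else 0

theorem main_loop (hb : 0 < b) (hbE : b ≤ E) (hL : ∀ x i, ∑ j, |L x i j| ≤ E)
    (he : ∀ i, 0 ≤ e0 i ∧ e0 i < b) (w : List X) (Pr : Prop) (n0 : ℕ)
    (h1 : ∀ k, 1 ≤ k → Pr → Pass b L e0 ok k w)
    (h2 : ∀ k, 1 ≤ k → n0 ≤ k → Pass b L e0 ok k w → Pr) :
    ∀ (β i : ℕ), i + β ≤ 4 * n0 → 4 * n0 ≤ β + 2 * 2 ^ i → (β = 0 → Pr) →
      Tri (.loop .bud fun _ => stage b L e0 ok)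
        (S (w.map encX) [] [] [] (List.replicate (2 ^ i) (emb 0 : Sy X I E))
          (List.replicate β (emb 0)) [])
        (fun s => s .bad = [] ↔ Pr) (30 * ((w.length + 1) * 2 ^ i) + 2 * β + 2 +
          ∑ j ∈ Finset.Ico i (4 * n0), term b L e0 ok (4 * n0) w j) := by
  intro β
  induction β using Nat.strong_induction_on with
  | _ β ih =>
  intro i a1 a2 a3
  rcases β with _ | β
  · exact (Tri.loop_nil rfl (by simp [a3 rfl])).cost (by omega)
  have hk : 1 ≤ 2 ^ i := Nat.one_le_two_pow
  obtain ⟨s1, s2⟩ := stage_ok (E := E) b L e0 ok hb hbE hL he w (2 ^ i) β hk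
  by_cases hp : Pass b L e0 ok (2 ^ i) w
  · by_cases h0 : β - 2 ^ i = 0
    · refine Tri.loop_cons (emb 0) (List.replicate β (emb 0)) (30 * ((w.length + 1) * 2 ^ i)) 1
        rfl (by omega) ?_
      simp only [U_bud]
      refine (s1 hp).tri (Tri.loop_nil (by simp [h0]) ?_)
      simpa using h2 _ hk (by omega) hp
    · have := ih (β - 2 ^ i) (by omega) (i + 1) (by omega) (by rw [pow_succ]; omega)
        (fun h => absurd h h0)
      rw [← pow_succ'] at s1
      refine Tri.loop_cons (emb 0) (List.replicate β (emb 0)) _ _ rfl ?_ (by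
        rw [U_bud]
        exact (s1 hp).tri this)
      rw [Finset.sum_eq_sum_Ico_succ_bot (show i < 4 * n0 by omega), term,
        if_pos ⟨hp, by omega⟩, pow_succ, ← mul_assoc (w.length + 1)]
      have : 1 ≤ (w.length + 1) * 2 ^ i := Nat.mul_pos (by omega) hk
      omega
  · refine Tri.loop_cons (emb 0) (List.replicate β (emb 0))
      (30 * ((w.length + 1) * 2 ^ i) + 2 * β) 1 rfl (by omega) ?_
    simp only [U_bud]
    refine (s2 hp).post fun s hs => Tri.loop_nil hs.1 ?_
    exact ⟨fun h => absurd h hs.2, fun h => absurd (h1 _ hk h) hp⟩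

noncomputable def prog (C : ℕ) : Prog R (Sy X I E) :=
  .seq (each .inp .sv fun _ => rep (4 * C) (.push .bud (emb 0)))
    (.seq (.push .kk (emb 0)) (.loop .bud fun _ => stage b L e0 ok))

theorem prog_ok (hb : 0 < b) (hbE : b ≤ E) (hL : ∀ x i, ∑ j, |L x i j| ≤ E)
    (he : ∀ i, 0 ≤ e0 i ∧ e0 i < b) (w : List X) (Pr : Prop) (C : ℕ) (hC : 1 ≤ C)
    (h0 : w = [] → Pr) (h1 : ∀ k, 1 ≤ k → Pr → Pass b L e0 ok k w)
    (h2 : ∀ k, 1 ≤ k → C * w.length ≤ k → Pass b L e0 ok k w → Pr) :
    Tri (prog b L e0 ok C) (update (fun _ => []) .inp (w.map (encX : X → Sy X I E)))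
      (fun s => s .bad = [] ↔ Pr) ((12 * C + 40) * (w.length + 1) +
        ∑ j ∈ Finset.range (4 * (C * w.length)), term b L e0 ok (4 * (C * w.length)) w j) := by
  set z : Sy X I E := emb 0 with hz
  set inp : List (Sy X I E) := w.map encX with hinp
  have hn : inp.length = w.length := by simp [hinp]
  have e : update (fun _ => []) R.inp inp = S inp [] [] [] [] [] [] := by
    funext r; cases r <;> simp
  have a1 := Ok.each (k := R.inp) (sv := .sv) (f := fun _ => rep (4 * C) (.push .bud z)) (by simp)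
    (fun _ => av_rep _ _ _ (by simp)) (fun _ => av_rep _ _ _ (by simp)) inp
    (fun j => S inp [] [] [] [] (List.replicate (4 * (C * j)) z) []) (4 * C + 1)
    (fun j _ => (pushN_ok _ _ _ _).eq (by
      simp only [S_bud, U_bud, List.replicate_append_replicate]
      congr 2; ring) le_rfl) rfl rfl
  simp only [mul_zero, List.replicate_zero, hn] at a1
  have a2 := main_loop (E := E) b L e0 ok hb hbE hL he w Pr (C * w.length) h1 h2
    (4 * (C * w.length)) 0 (by omega) (by omega) (fun h => h0 (by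
      rw [← List.length_eq_zero_iff]
      by_contra hh
      have : 1 ≤ C * w.length := Nat.mul_pos hC (by omega)
      omega))
  rw [e]
  refine (a1.then ((Ok.push _ _ _).then (by simpa using a2))).cost ?_
  rw [Finset.range_eq_Ico]
  nlinarith

theorem pow_sum_le (β J : ℕ) :
    ∑ j ∈ Finset.range J, (if 2 ^ j ≤ β then (2 : ℝ) ^ j else 0) ≤ 2 * β := by
  have h1 : ∀ J, ∑ j ∈ Finset.range J, (if 2 ^ j ≤ β then (2 : ℝ) ^ j else 0) ≤ 2 ^ J := by
    intro J
    induction J with
    | zero => simp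
    | succ J ih =>
      rw [Finset.sum_range_succ, pow_succ]
      have : (0 : ℝ) < 2 ^ J := by positivity
      split_ifs <;> linarith
  induction J with
  | zero => simp
  | succ J ih =>
    by_cases h : 2 ^ J ≤ β
    · have := h1 (J + 1)
      have h' : (2 : ℝ) ^ J ≤ β := by exact_mod_cast h
      rw [pow_succ] at this
      linarith
    · rw [Finset.sum_range_succ, if_neg h]; linarith

end stage

open Classical in
theorem goal_mod {m : ℕ} (b : ℤ) (L : Fin m × Bool → Matrix I I ℤ) (e0 : I → ℤ)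
    (ok : (I → ℤ) → Prop) (hb : 0 < b) (he : ∀ i, 0 ≤ e0 i ∧ e0 i < b)
    (Pr : List (Fin m × Bool) → Prop) (C : ℕ) (hC : 1 ≤ C) (h0 : Pr [])
    (h1 : ∀ w k, 1 ≤ k → Pr w → Pass b L e0 ok k w)
    (h2 : ∀ w k, 1 ≤ k → C * w.length ≤ k → Pass b L e0 ok k w → Pr w) (K : ℝ) (hK : 0 ≤ K)
    (h3 : ∀ n k : ℕ, 1 ≤ k → (∑ v : Fin n → Fin m × Bool,
      if Pass b L e0 ok k (List.ofFn v) then (1 : ℝ) else 0) ≤
        (2 * m) ^ n * (K / (n + 1) + K / k ^ 2)) : Goal m Pr := by
  obtain ⟨E, hbE, hL⟩ : ∃ E : ℕ, b ≤ E ∧ ∀ x i, ∑ j, |L x i j| ≤ E := by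
    refine ⟨b.toNat + ∑ x, ∑ i, ∑ j, (L x i j).natAbs, ?_, fun x i => ?_⟩
    · push_cast
      have : (0 : ℤ) ≤ ∑ x, ∑ i, ∑ j, |L x i j| := by positivity
      have := Int.self_le_toNat b
      linarith
    · push_cast
      have q1 : ∑ j, |L x i j| ≤ ∑ i, ∑ j, |L x i j| :=
        Finset.single_le_sum (f := fun i => ∑ j, |L x i j|) (fun _ _ => by positivity)
          (Finset.mem_univ i)
      have q2 : ∑ i, ∑ j, |L x i j| ≤ ∑ x, ∑ i, ∑ j, |L x i j| :=
        Finset.single_le_sum (f := fun x => ∑ i, ∑ j, |L x i j|) (fun _ _ => by positivity)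
          (Finset.mem_univ x)
      have : (0 : ℤ) ≤ b.toNat := by positivity
      linarith
  obtain ⟨K', hK'⟩ := exists_nat_ge K
  refine goal_of (prog (E := E) b L e0 ok C) .inp .bad encX encX_inj Pr (12 * C + 40)
    (70 * K' * (8 * C + 2)) _ (fun w => prog_ok b L e0 ok hb hbE hL he w (Pr w) C hC
      (fun h => h ▸ h0) (h1 w) (h2 w)) fun n => ?_
  simp only [List.length_ofFn]
  rw [Finset.sum_comm, ← Nat.cast_le (α := ℝ)]
  push_cast
  have hq : (0 : ℝ) ≤ (2 * m) ^ n := by positivity
  calc _ ≤ ∑ j ∈ Finset.range (4 * (C * n)), 70 * K * (2 * m) ^ n *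
          ((if 2 ^ j ≤ 4 * (C * n) then (2 : ℝ) ^ j else 0) + (n + 1) * (1 / 2) ^ j) := by
        refine Finset.sum_le_sum fun j _ => ?_
        by_cases hj : 2 ^ j ≤ 4 * (C * n)
        · have := h3 n (2 ^ j) Nat.one_le_two_pow
          have e : ∑ v : Fin n → Fin m × Bool,
              ((term b L e0 ok (4 * (C * n)) (List.ofFn v) j : ℕ) : ℝ) =
              70 * ((n + 1) * 2 ^ j) * ∑ v : Fin n → Fin m × Bool,
                if Pass b L e0 ok (2 ^ j) (List.ofFn v) then (1 : ℝ) else 0 := by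
            rw [Finset.mul_sum]
            refine Finset.sum_congr rfl fun v _ => ?_
            by_cases hp : Pass b L e0 ok (2 ^ j) (List.ofFn v) <;> simp [term, hp, hj]
          rw [e, if_pos hj]
          refine (mul_le_mul_of_nonneg_left this (by positivity)).trans (le_of_eq ?_)
          push_cast
          rw [one_div, inv_pow]
          field_simp
        · simp only [term, hj, and_false, if_false, Nat.cast_zero, Finset.sum_const_zero]
          positivity
    _ ≤ 70 * K * (2 * m) ^ n * (2 * ((4 * (C * n) : ℕ) : ℝ) + (n + 1) * 2) := by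
        rw [← Finset.mul_sum, Finset.sum_add_distrib, ← Finset.mul_sum]
        gcongr
        · exact pow_sum_le _ _
        · exact sum_geometric_two_le _
    _ ≤ 70 * K' * (2 * m) ^ n * ((8 * C + 2) * (n + 1)) := by
        gcongr
        push_cast
        have : (0 : ℝ) ≤ C := by positivity
        nlinarith
    _ = _ := by ring

end Pool.Agent.H120Z.WP
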