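import Pool.Agent.H120Z.WP.Nash
import Pool.Agent.H120Z.WP.Mach

/-! Group theory: virtually cyclic groups, quadratic growth, and the counting bound. -/

set_option autoImplicit false

namespace Pool.Agent.H120Z.WP

open Function Pool.Agent.H960Z.TM
open FreeGroup (mul_mk one_eq_mk inv_mk mk_toWord invRev invRev_length)

variable {m : ℕ} {G : Type} [Group G]

theorem ev_cons (φ : FreeGroup (Fin m) →* G) (x : Fin m × Bool) (w : List (Fin m × Bool)) :
    φ (FreeGroup.mk (x :: w)) = φ (FreeGroup.mk [x]) * φ (FreeGroup.mk w) := by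
  rw [← map_mul, mul_mk]; rfl

theorem ev_append (φ : FreeGroup (Fin m) →* G) (u w : List (Fin m × Bool)) :
    φ (FreeGroup.mk (u ++ w)) = φ (FreeGroup.mk u) * φ (FreeGroup.mk w) := by
  rw [← map_mul, mul_mk]

theorem ev_nil (φ : FreeGroup (Fin m) →* G) : φ (FreeGroup.mk []) = 1 := by
  rw [← one_eq_mk, map_one]

theorem ev_prod (φ : FreeGroup (Fin m) →* G) (w : List (Fin m × Bool)) :
    (w.map fun x => φ (FreeGroup.mk [x])).prod = φ (FreeGroup.mk w) := by
  induction w with
  | nil => simp [ev_nil]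
  | cons x w ih => rw [List.map_cons, List.prod_cons, ih, ev_cons φ x w]

theorem ev_flip (φ : FreeGroup (Fin m) →* G) (x : Fin m × Bool) :
    φ (FreeGroup.mk [(x.1, !x.2)]) = (φ (FreeGroup.mk [x]))⁻¹ := by
  rw [← map_inv, inv_mk]; rfl

theorem mk_surj (z : FreeGroup (Fin m)) : ∃ w, FreeGroup.mk w = z := ⟨z.toWord, mk_toWord⟩

theorem goal_auto {S : Type} [Finite S] (δ : S → Fin m × Bool → S) (u : S → Fin m × Bool → ℤ)
    (s0 : S) (Pr : List (Fin m × Bool) → Prop)
    (h : ∀ w, Pr w ↔ tot δ u s0 w = 0 ∧ w.foldl δ s0 = s0) : Goal m Pr := by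
  classical
  letI : Inhabited S := ⟨s0⟩
  letI := Fintype.ofFinite S
  set b := Finset.univ.sup fun y : S × (Fin m × Bool) => (u y.1 y.2).natAbs with hb
  refine goal_of (stage1 (r := 0) (E := 0) δ s0 (fun s => s = s0) [u]) .inp .bad enc enc_inj Pr
    (2 * (12 * b + 10) + 1) 0 (fun _ => 0) (fun w => ?_) (by simp)
  obtain ⟨l, o1, o2⟩ := stage1_ok (r := 0) (E := 0) δ s0 (fun s => s = s0) [u] b (by
      intro u' hu s x
      rw [List.mem_singleton.1 hu]
      exact Finset.le_sup (f := fun y : S × (Fin m × Bool) => (u y.1 y.2).natAbs)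
        (Finset.mem_univ (s, x))) w
    (update (fun _ => []) .inp (w.map enc)) (by simp) (by simp) (by simp) (by simp) (by simp)
  refine (o1.tri ?_).cost (by simp only [List.length_singleton]; nlinarith)
  simp only [update_self, ne_eq, reduceCtorEq, not_false_eq_true, update_of_ne, List.append_nil]
  rw [o2, h]
  simp

theorem goal_finite [Finite G] (φ : FreeGroup (Fin m) →* G) :
    Goal m fun w => φ (FreeGroup.mk w) = 1 := by
  refine goal_auto (fun s x => s * φ (FreeGroup.mk [x])) 0 1 _ fun w => ?_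
  have : ∀ s, w.foldl (fun s x => s * φ (FreeGroup.mk [x])) s = s * φ (FreeGroup.mk w) := by
    induction w with
    | nil => intro s; simp [ev_nil]
    | cons x w ih => intro s; rw [List.foldl_cons, ih, ev_cons φ x w, mul_assoc]
  haveI hI : Inhabited G := ⟨1⟩
  rw [tot_zero, this]
  simp

theorem goal_cyclic (φ : FreeGroup (Fin m) →* G) (a : G) (ha : ∀ e : ℤ, a ^ e = 1 → e = 0)
    {S : Type} [Finite S] (c : G → S) (hs : Surjective c)
    (hc : ∀ g g', c g = c g' ↔ ∃ e : ℤ, g = a ^ e * g') :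
    Goal m fun w => φ (FreeGroup.mk w) = 1 := by
  choose t ht using hs
  have : ∀ s x, ∃ e : ℤ, t s * φ (FreeGroup.mk [x]) =
      a ^ e * t (c (t s * φ (FreeGroup.mk [x]))) := fun s x => (hc _ _).1 (ht _).symm
  choose u hu using this
  refine goal_auto (fun s x => c (t s * φ (FreeGroup.mk [x]))) u (c 1) _ fun w => ?_
  have key : ∀ s, t s * φ (FreeGroup.mk w) =
      a ^ tot (fun s x => c (t s * φ (FreeGroup.mk [x]))) u s w *
        t (w.foldl (fun s x => c (t s * φ (FreeGroup.mk [x]))) s) := by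
    induction w with
    | nil => intro s; simp [ev_nil, tot]
    | cons x w ih =>
      intro s
      rw [ev_cons, ← mul_assoc, hu, mul_assoc, ih, tot, List.foldl_cons, zpow_add, mul_assoc]
  have k := key (c 1)
  constructor
  · intro h
    rw [h, mul_one] at k
    have e := (hc _ _).2 ⟨_, k⟩
    rw [ht, ht] at e
    rw [← e] at k
    exact ⟨ha _ (by simpa using k.symm), e.symm⟩
  · rintro ⟨h1, h2⟩
    rw [h1, h2] at k
    simpa using k

/-- quadratic growth -/
def Growth (φ : FreeGroup (Fin m) →* G) (l : ℕ) : Prop :=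
  ∀ j : ℕ, ∃ P : Finset (List (Fin m × Bool)), (j + 1) ^ 2 ≤ P.card ∧
    (∀ w ∈ P, w.length ≤ l * j) ∧ Set.InjOn (fun w => φ (FreeGroup.mk w)) P

theorem ev_rep (φ : FreeGroup (Fin m) →* G) (w : List (Fin m × Bool)) (i : ℕ) :
    φ (FreeGroup.mk (List.replicate i w).flatten) = φ (FreeGroup.mk w) ^ i := by
  induction i with
  | zero => simp [ev_nil]
  | succ i ih => rw [List.replicate_succ, List.flatten_cons, ev_append, ih, pow_succ']

theorem growth_of (φ : FreeGroup (Fin m) →* G) (hφ : Surjective φ) (a : G)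
    (ha : ∀ e : ℤ, a ^ e = 1 → e = 0) {S : Type} [Infinite S] (c : G → S) (hs : Surjective c)
    (hc : ∀ g g', c g = c g' ↔ ∃ e : ℤ, g = a ^ e * g') : ∃ l, 1 ≤ l ∧ Growth φ l := by
  classical
  have h1 : ∀ j : ℕ, ∃ T : Finset (List (Fin m × Bool)), T.card = j + 1 ∧
      (∀ w ∈ T, w.length ≤ j) ∧ Set.InjOn (fun w => c (φ (FreeGroup.mk w))) T := by
    intro j
    induction j with
    | zero => exact ⟨{[]}, by simp, by simp, by simp⟩
    | succ j ih =>
      obtain ⟨T, t1, t2, t3⟩ := ih
      have : ∃ w : List (Fin m × Bool), w.length ≤ j + 1 ∧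
          ∀ t ∈ T, c (φ (FreeGroup.mk t)) ≠ c (φ (FreeGroup.mk w)) := by
        by_contra hh
        push Not at hh
        have all : ∀ w : List (Fin m × Bool), ∃ t ∈ T,
            c (φ (FreeGroup.mk t)) = c (φ (FreeGroup.mk w)) := by
          intro w
          induction w using List.reverseRecOn with
          | nil => exact hh [] (by simp)
          | append_singleton w x ih =>
            obtain ⟨t, q1, q2⟩ := ih
            obtain ⟨t', q3, q4⟩ := hh (t ++ [x]) (by simpa using t2 t q1)
            refine ⟨t', q3, q4.trans ?_⟩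
            obtain ⟨e, he⟩ := (hc _ _).1 q2
            exact (hc _ _).2 ⟨e, by rw [ev_append, ev_append, he, mul_assoc]⟩
        refine Set.infinite_univ (α := S)
          ((T.finite_toSet.image fun t => c (φ (FreeGroup.mk t))).subset fun s _ => ?_)
        obtain ⟨g, rfl⟩ := hs s
        obtain ⟨z, rfl⟩ := hφ g
        obtain ⟨w, rfl⟩ := mk_surj z
        exact all w
      obtain ⟨w, q1, q2⟩ := this
      have hw : w ∉ T := fun h => q2 w h rfl
      refine ⟨insert w T, by rw [Finset.card_insert_of_notMem hw, t1], fun v hv => ?_, ?_⟩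
      · rcases Finset.mem_insert.1 hv with rfl | hv
        · exact q1
        · exact (t2 v hv).trans (by omega)
      · rw [Finset.coe_insert]
        refine (Set.injOn_insert (by simpa using hw)).2 ⟨t3, ?_⟩
        rintro ⟨t, h1, h2⟩
        exact q2 t h1 h2
  obtain ⟨z, rfl⟩ := hφ a
  obtain ⟨wa, rfl⟩ := mk_surj z
  refine ⟨wa.length + 1, by omega, fun j => ?_⟩
  obtain ⟨T, t1, t2, t3⟩ := h1 j
  let μ : ℕ × List (Fin m × Bool) → List (Fin m × Bool) := fun y =>
    (List.replicate y.1 wa).flatten ++ y.2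
  have hμ : Set.InjOn (fun y => φ (FreeGroup.mk (μ y)))
      (Finset.range (j + 1) ×ˢ T : Finset (ℕ × List (Fin m × Bool))) := by
    rintro ⟨i, t⟩ h ⟨i', t'⟩ h' e
    simp only [Finset.coe_product, Set.mem_prod, Finset.mem_coe] at h h'
    simp only [μ, ev_append, ev_rep] at e
    have e2 : φ (FreeGroup.mk t) = φ (FreeGroup.mk wa) ^ ((i' : ℤ) - i) * φ (FreeGroup.mk t') := by
      rw [sub_eq_neg_add, zpow_add, mul_assoc, zpow_natCast, ← e, zpow_neg, zpow_natCast]
      simp
    have e3 : t = t' := t3 h.2 h'.2 ((hc _ _).2 ⟨_, e2⟩)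
    subst e3
    have := ha _ (by simpa using e2.symm)
    exact Prod.ext (by simp only; omega) rfl
  refine ⟨(Finset.range (j + 1) ×ˢ T).image μ, ?_, ?_, ?_⟩
  · rw [Finset.card_image_of_injOn (hμ.of_comp (g := fun w => φ (FreeGroup.mk w)))]
    simp [t1, sq]
  · intro w hw
    obtain ⟨⟨i, t⟩, h, rfl⟩ := Finset.mem_image.1 hw
    rw [Finset.mem_product, Finset.mem_range] at h
    have := t2 t h.2
    have h3 : i * wa.length ≤ j * wa.length := Nat.mul_le_mul_right _ (by omega)
    simp only [μ, List.length_append, List.length_flatten, List.map_replicate, List.sum_replicate,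
      smul_eq_mul]
    nlinarith
  · intro w hw w' hw' e
    obtain ⟨y, h, rfl⟩ := Finset.mem_image.1 hw
    obtain ⟨y', h', rfl⟩ := Finset.mem_image.1 hw'
    rw [hμ h h' e]

theorem pad {Q : Type} [Group Q] (ψ : FreeGroup (Fin m) →* Q) (x : Fin m × Bool)
    (w : List (Fin m × Bool)) (e : ℕ) :
    ∃ w' : List (Fin m × Bool), w'.length = w.length + 2 * e ∧
      ψ (FreeGroup.mk w') = ψ (FreeGroup.mk w) := by
  refine ⟨w ++ (List.replicate e [x, (x.1, !x.2)]).flatten, by simp [mul_comm], ?_⟩
  rw [ev_append, ev_rep, ev_cons, ev_flip]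
  simp

open Classical in
theorem count_bound (φ : FreeGroup (Fin m) →* G) (l : ℕ) (hl : 1 ≤ l) (hg : Growth φ l) (C : ℕ)
    (hC : 1 ≤ C) : ∃ K : ℝ, 0 ≤ K ∧ ∀ (Q : Type) [Group Q] [Finite Q] (ψ : FreeGroup (Fin m) →* Q)
      (k : ℕ), 1 ≤ k → (∀ w : List (Fin m × Bool), C * w.length ≤ k → ψ (FreeGroup.mk w) = 1 →
        φ (FreeGroup.mk w) = 1) → ∀ n : ℕ,
      (∑ v : Fin n → Fin m × Bool, if ψ (FreeGroup.mk (List.ofFn v)) = 1 then (1 : ℝ) else 0) ≤
        (2 * m) ^ n * (K / (n + 1) + K / k ^ 2) := by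
  have hne : Nonempty (Fin m × Bool) := by
    obtain ⟨P, p1, -, -⟩ := hg 1
    obtain ⟨u, -, v, -, huv⟩ := Finset.one_lt_card.1 (show 1 < P.card by omega)
    rcases u with _ | ⟨x, _⟩
    · rcases v with _ | ⟨x, _⟩
      · exact absurd rfl huv
      · exact ⟨x⟩
    · exact ⟨x⟩
  obtain ⟨x0⟩ := id hne
  set c : ℝ := 2 * (l : ℝ) ^ 2 with hc
  have hl' : (1 : ℝ) ≤ l := by exact_mod_cast hl
  have hC' : (1 : ℝ) ≤ C := by exact_mod_cast hC
  have hc1 : 1 ≤ c := by nlinarith
  refine ⟨32 * (2 * m) ^ 2 * c + 32 * c * C ^ 2, by positivity, ?_⟩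
  intro Q _ _ ψ k hk hex n
  letI := Fintype.ofFinite Q
  have hk' : (0 : ℝ) < k := by exact_mod_cast hk
  have hq : (Fintype.card (Fin m × Bool) : ℝ) = 2 * m := by simp [mul_comm]
  have p0 : (0 : ℝ) ≤ (2 * m) ^ n := by positivity
  have p1 : 0 ≤ 32 * (2 * (m : ℝ)) ^ 2 * c := by positivity
  have p2 : 0 ≤ 32 * c * C ^ 2 := by positivity
  rcases Nat.eq_zero_or_pos (k / (2 * C)) with h0 | hL
  · have : k < 2 * C := by
      by_contra hh
      have := Nat.div_pos (not_lt.1 hh) (by omega)
      omega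
    have h2 : (k : ℝ) ≤ 2 * C := by exact_mod_cast this.le
    calc _ ≤ ∑ _v : Fin n → Fin m × Bool, (1 : ℝ) :=
          Finset.sum_le_sum fun _ _ => by split_ifs <;> norm_num
      _ = (2 * m) ^ n * 1 := by simp [mul_comm]
      _ ≤ _ := by
          gcongr
          have : 1 ≤ (32 * (2 * (m : ℝ)) ^ 2 * c + 32 * c * C ^ 2) / k ^ 2 := by
            rw [le_div_iff₀ (by positivity)]
            have : (k : ℝ) ^ 2 ≤ (2 * C) ^ 2 := by gcongr
            have : (C : ℝ) ^ 2 ≤ c * C ^ 2 := by nlinarith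
            nlinarith
          have : 0 ≤ (32 * (2 * (m : ℝ)) ^ 2 * c + 32 * c * C ^ 2) / (n + 1) := by positivity
          linarith
  · let σ : Fin m × Bool ≃ Fin m × Bool :=
      Function.Involutive.toPerm (fun x => (x.1, !x.2)) (fun x => by simp)
    have := nash (fun x => ψ (FreeGroup.mk [x])) σ (fun x => ev_flip ψ x) c hc1 (k / (2 * C)) hL
      (by
        intro r r1 r2
        let B := Finset.univ.filter fun z : Q => ∃ w : List (Fin m × Bool), w.length = 2 * r ∧
          (w.map fun x => ψ (FreeGroup.mk [x])).prod = z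
        refine ⟨B, ?_, fun z hz => (Finset.mem_filter.1 hz).2⟩
        obtain ⟨P, q1, q2, q3⟩ := hg (r / l)
        have q4 : ∀ w ∈ P, w.length ≤ r := fun w hw => (q2 w hw).trans (Nat.mul_div_le r l)
        have q5 : Set.InjOn (fun w => ψ (FreeGroup.mk w)) P := by
          intro u hu v hv e
          refine q3 hu hv ?_
          have e1 : ψ (FreeGroup.mk (u ++ invRev v)) = 1 := by
            rw [ev_append, ← inv_mk, map_inv]
            exact mul_inv_eq_one.2 e
          have e2 := hex _ (by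
            have := q4 u hu
            have := q4 v hv
            have h3 := (Nat.le_div_iff_mul_le (by omega)).1 r2
            rw [List.length_append, invRev_length]
            nlinarith) e1
          rw [ev_append, ← inv_mk, map_inv] at e2
          exact mul_inv_eq_one.1 e2
        have q6 : P.image (fun w => ψ (FreeGroup.mk w)) ⊆
            B ∪ B.image fun z => z * (ψ (FreeGroup.mk [x0]))⁻¹ := by
          intro z hz
          obtain ⟨w, hw, rfl⟩ := Finset.mem_image.1 hz
          have := q4 w hw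
          rw [Finset.mem_union]
          rcases Nat.even_or_odd' w.length with ⟨j, hj | hj⟩
          · left
            obtain ⟨w', e1, e2⟩ := pad ψ x0 w (r - j)
            exact Finset.mem_filter.2 ⟨Finset.mem_univ _, w', by omega, by rw [ev_prod, e2]⟩
          · right
            obtain ⟨w', e1, e2⟩ := pad ψ x0 (w ++ [x0]) (r - (j + 1))
            rw [List.length_append, List.length_singleton] at e1
            refine Finset.mem_image.2 ⟨_, Finset.mem_filter.2
              ⟨Finset.mem_univ _, w', by omega, rfl⟩, ?_⟩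
            rw [ev_prod, e2, ev_append]
            simp
        have q7 := Finset.card_le_card q6
        rw [Finset.card_image_of_injOn q5] at q7
        have q8 := Finset.card_union_le B (B.image fun z => z * (ψ (FreeGroup.mk [x0]))⁻¹)
        have q9 : (B.image fun z => z * (ψ (FreeGroup.mk [x0]))⁻¹).card ≤ B.card :=
          Finset.card_image_le
        have q10 : r ≤ l * (r / l + 1) := (Nat.lt_mul_div_succ r hl).le
        have q11 : r ^ 2 ≤ 2 * l ^ 2 * B.card :=
          calc r ^ 2 ≤ (l * (r / l + 1)) ^ 2 := by gcongr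
            _ = l ^ 2 * (r / l + 1) ^ 2 := by ring
            _ ≤ l ^ 2 * (2 * B.card) := by gcongr; omega
            _ = _ := by ring
        rw [hc]
        exact_mod_cast q11) n
    simp only [ev_prod, hq] at this
    refine (le_of_eq_of_le (by congr) this).trans ?_
    gcongr ?_ * (?_ + ?_)
    · gcongr; linarith
    · rw [div_le_div_iff₀ (by positivity) (by positivity)]
      have h3 : k ≤ 4 * C * (k / (2 * C)) := by
        have := Nat.lt_mul_div_succ k (show 0 < 2 * C by omega)
        nlinarith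
      have h4 : (k : ℝ) ≤ 4 * C * ((k / (2 * C) : ℕ) : ℝ) := by exact_mod_cast h3
      have h5 : (k : ℝ) ^ 2 ≤ (4 * C * ((k / (2 * C) : ℕ) : ℝ)) ^ 2 := by gcongr
      have h6 : 0 ≤ 32 * (2 * (m : ℝ)) ^ 2 * c * ((k / (2 * C) : ℕ) : ℝ) ^ 2 := by positivity
      nlinarith

end Pool.Agent.H120Z.WP
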