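import Pool.Agent.H120Z.WP.Grp

/-! Linear average-case complexity of the word problem in rational matrix groups. -/

set_option autoImplicit false

namespace Pool.Agent.H120Z.WP

open Function Matrix

section lin

variable {X I : Type} [Fintype I]

def val (b : ℤ) : List (I → ℤ) → I → ℤ
  | [] => 0
  | a :: ds => a + b • val b ds

theorem val_stepL (b : ℤ) (A : Matrix I I ℤ) (ds : List (I → ℤ)) :
    ∀ c, ∃ c' : I → ℤ, val b (stepL b A ds c) + b ^ ds.length • c' = A *ᵥ val b ds + c := by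
  induction ds with
  | nil => intro c; exact ⟨c, by simp [stepL, val]⟩
  | cons a ds ih =>
    intro c
    obtain ⟨c', h⟩ := ih (fun i => (A *ᵥ a + c) i / b)
    refine ⟨c', ?_⟩
    funext i
    have h1 := congrFun h i
    have h2 := Int.emod_add_mul_ediv ((A *ᵥ a + c) i) b
    simp only [stepL, val, mulVec_add, mulVec_smul, Pi.add_apply, Pi.smul_apply, smul_eq_mul,
      List.length_cons, pow_succ] at h1 h2 ⊢
    linear_combination b * h1 + h2

omit [Fintype I] in
theorem val_bound {b : ℤ} (hb : 0 < b) (ds : List (I → ℤ)) (hd : Dig b ds) (i : I) :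
    0 ≤ val b ds i ∧ val b ds i < b ^ ds.length ∧ (val b ds i = 0 ↔ ∀ a ∈ ds, a i = 0) := by
  induction ds with
  | nil => simp [val]
  | cons a ds ih =>
    obtain ⟨h1, h2, h3⟩ := ih fun a' h => hd a' (by simp [h])
    obtain ⟨a1, a2⟩ := hd a (by simp) i
    have h4 : 0 ≤ b * val b ds i := by positivity
    simp only [val, Pi.add_apply, Pi.smul_apply, smul_eq_mul, List.length_cons, pow_succ,
      List.mem_cons, forall_eq_or_imp]
    refine ⟨by linarith, by nlinarith, ?_⟩
    rw [← h3]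
    constructor
    · intro h
      have : b * val b ds i = 0 := by linarith
      exact ⟨by linarith, (mul_eq_zero.1 this).resolve_left hb.ne'⟩
    · rintro ⟨h5, h6⟩
      simp [h5, h6]

omit [Fintype I] in
theorem val_zero (b : ℤ) (k : ℕ) : val b (List.replicate k (0 : I → ℤ)) = 0 := by
  induction k with
  | zero => rfl
  | succ k ih => simp [List.replicate_succ, val, ih]

def Y (L : X → Matrix I I ℤ) (y : I → ℤ) (w : List X) : I → ℤ :=
  w.foldl (fun y x => L x *ᵥ y) y

theorem pass_iff {b : ℤ} (hb : 0 < b) (L : X → Matrix I I ℤ) (e0 : I → ℤ)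
    (he : ∀ i, 0 ≤ e0 i ∧ e0 i < b) (J : I → Prop) (k : ℕ) (hk : 1 ≤ k) (w : List X) :
    Pass b L e0 (fun a => ∀ i, J i → a i = 0) k w ↔ ∀ i, J i → b ^ k ∣ Y L e0 w i := by
  have key : ∀ (ds : List (I → ℤ)) (y : I → ℤ), Dig b ds → ds.length = k →
      (∃ z : I → ℤ, y = val b ds + b ^ k • z) →
      Dig b (w.foldl (fun ds x => stepL b (L x) ds 0) ds) ∧
      (w.foldl (fun ds x => stepL b (L x) ds 0) ds).length = k ∧
      ∃ z : I → ℤ, Y L y w = val b (w.foldl (fun ds x => stepL b (L x) ds 0) ds) + b ^ k • z := by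
    induction w with
    | nil => intro ds y h1 h2 h3; exact ⟨h1, h2, h3⟩
    | cons x w ih =>
      rintro ds y h1 h2 ⟨z, rfl⟩
      refine ih _ _ (stepL_dig hb _ _ _) (by rw [stepL_length, h2]) ?_
      obtain ⟨c', h⟩ := val_stepL b (L x) ds 0
      refine ⟨c' + L x *ᵥ z, ?_⟩
      rw [add_zero, h2] at h
      simp only [mulVec_add, mulVec_smul, ← h, smul_add, add_assoc]
  obtain ⟨h1, h2, z, h3⟩ := key (e0 :: List.replicate (k - 1) 0) e0 (by
      intro a ha
      rcases List.mem_cons.1 ha with rfl | ha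
      · exact he
      · rw [List.eq_of_mem_replicate ha]; simpa using fun _ => hb) (by simp; omega)
    ⟨0, by simp [val, val_zero]⟩
  change Dig b (dig b L e0 k w) at h1
  change (dig b L e0 k w).length = k at h2
  change _ = val b (dig b L e0 k w) + _ at h3
  have h4 : ∀ i, b ^ k ∣ Y L e0 w i ↔ ∀ a ∈ dig b L e0 k w, a i = 0 := by
    intro i
    obtain ⟨v1, v2, v3⟩ := val_bound hb _ h1 i
    rw [h2] at v2
    rw [← v3, h3, Pi.add_apply, Pi.smul_apply, smul_eq_mul, dvd_add_left (dvd_mul_right _ _)]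
    exact ⟨Int.eq_zero_of_dvd_of_nonneg_of_lt v1 v2, fun h => h ▸ dvd_zero _⟩
  simp only [Pass, h4]
  exact ⟨fun h i hi a ha => h a ha i hi, fun h a ha i hi => h i hi a ha⟩

theorem Y_bound (L : X → Matrix I I ℤ) (E : ℤ) (hL : ∀ x i, ∑ j, |L x i j| ≤ E) (w : List X) :
    ∀ (y : I → ℤ) (c : ℤ), (∀ i, |y i| ≤ c) → ∀ i, |Y L y w i| ≤ c * E ^ w.length := by
  induction w with
  | nil => intro y c h i; simpa [Y] using h i
  | cons x w ih =>
    intro y c h i
    have := ih (L x *ᵥ y) (c * E) (fun i => ?_) i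
    · rw [List.length_cons, pow_succ', ← mul_assoc]; exact this
    calc |(L x *ᵥ y) i| = |∑ j, L x i j * y j| := rfl
      _ ≤ ∑ j, |L x i j * y j| := Finset.abs_sum_le_sum_abs _ _
      _ ≤ ∑ j, |L x i j| * c := by
          refine Finset.sum_le_sum fun j _ => ?_
          rw [abs_mul]
          have := h j
          gcongr
      _ ≤ c * E := by
          rw [← Finset.sum_mul, mul_comm]
          have := hL x i
          have := (abs_nonneg _).trans (h i)
          gcongr

end lin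

section mat

variable {d m : ℕ}

def Lm (N : ℤ) (A : Matrix (Fin d) (Fin d) ℤ) :
    Matrix (Option (Fin d × Fin d)) (Option (Fin d × Fin d)) ℤ :=
  Matrix.of fun o o' => match o, o' with
    | none, none => N
    | none, some _ => 0
    | some p, none => (A - N • (1 : Matrix (Fin d) (Fin d) ℤ)) p.1 p.2
    | some p, some q => if q.1 = p.1 then A q.2 p.2 else 0

def vec (c : ℤ) (D : Matrix (Fin d) (Fin d) ℤ) : Option (Fin d × Fin d) → ℤ
  | none => c
  | some p => D p.1 p.2

theorem Lm_vec (N c : ℤ) (A D : Matrix (Fin d) (Fin d) ℤ) :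
    Lm N A *ᵥ vec c D = vec (c * N) (D * A + c • (A - N • 1)) := by
  funext o
  rcases o with _ | ⟨i, j⟩
  · simp [mulVec, dotProduct, Fintype.sum_option, Lm, vec, mul_comm]
  · simp only [mulVec, dotProduct, Fintype.sum_option, Lm, vec, of_apply, Fintype.sum_prod_type,
      ite_mul, zero_mul, Matrix.add_apply, Matrix.smul_apply, smul_eq_mul, Matrix.mul_apply]
    rw [Finset.sum_comm, add_comm]
    simp only [Finset.sum_ite_eq', Finset.mem_univ, if_true, mul_comm]

/-- the integer matrix whose vanishing is the word problem -/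
def Dw (N : ℤ) (A : Fin m × Bool → Matrix (Fin d) (Fin d) ℤ) (w : List (Fin m × Bool)) :
    Matrix (Fin d) (Fin d) ℤ := (w.map A).prod - N ^ w.length • 1

theorem Y_Lm (N : ℤ) (A : Fin m × Bool → Matrix (Fin d) (Fin d) ℤ) (w : List (Fin m × Bool)) :
    Y (fun x => Lm N (A x)) (vec 1 0) w = vec (N ^ w.length) (Dw N A w) := by
  have key : ∀ (c : ℤ) (P : Matrix (Fin d) (Fin d) ℤ),
      Y (fun x => Lm N (A x)) (vec c (P - c • 1)) w =
        vec (c * N ^ w.length) (P * (w.map A).prod - (c * N ^ w.length) • 1) := by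
    induction w with
    | nil => intro c P; simp [Y]
    | cons x w ih =>
      intro c P
      have := ih (c * N) (P * A x)
      simp only [Y, List.foldl_cons, Lm_vec, List.length_cons, List.map_cons, List.prod_cons,
        pow_succ', ← mul_assoc] at this ⊢
      rw [← this]
      congr 2
      simp only [sub_mul, smul_sub, smul_mul_assoc, one_mul, smul_smul]
      abel
  simpa [Dw] using key 1 1

theorem cast_prod {R : Type} [CommRing R] (N : ℤ) (A : Fin m × Bool → Matrix (Fin d) (Fin d) ℤ)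
    (ψ : FreeGroup (Fin m) →* (Matrix (Fin d) (Fin d) R)ˣ)
    (h : ∀ x, (Int.castRingHom R).mapMatrix (A x) = (N : R) • (ψ (FreeGroup.mk [x])).val)
    (w : List (Fin m × Bool)) :
    (Int.castRingHom R).mapMatrix (w.map A).prod =
      (N : R) ^ w.length • (ψ (FreeGroup.mk w)).val := by
  induction w with
  | nil => simp [ev_nil]
  | cons x w ih =>
    rw [List.map_cons, List.prod_cons, map_mul, h, ih, ev_cons ψ x w, List.length_cons,
      Units.val_mul, smul_mul_smul_comm, pow_succ']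

theorem cast_iff {R : Type} [CommRing R] (N : ℤ) (hN : IsUnit (N : R))
    (A : Fin m × Bool → Matrix (Fin d) (Fin d) ℤ)
    (ψ : FreeGroup (Fin m) →* (Matrix (Fin d) (Fin d) R)ˣ)
    (h : ∀ x, (Int.castRingHom R).mapMatrix (A x) = (N : R) • (ψ (FreeGroup.mk [x])).val)
    (w : List (Fin m × Bool)) :
    ψ (FreeGroup.mk w) = 1 ↔ ∀ i j, ((Dw N A w i j : ℤ) : R) = 0 := by
  have e : (Int.castRingHom R).mapMatrix (Dw N A w) =
      (N : R) ^ w.length • ((ψ (FreeGroup.mk w)).val - 1) := by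
    rw [Dw, map_sub, cast_prod N A ψ h, smul_sub, map_zsmul, map_one, ← Int.cast_pow,
      Int.cast_smul_eq_zsmul, Int.cast_smul_eq_zsmul]
  have e2 : (∀ i j, ((Dw N A w i j : ℤ) : R) = 0) ↔
      (Int.castRingHom R).mapMatrix (Dw N A w) = 0 := by
    rw [← Matrix.ext_iff]; rfl
  rw [e2, e, (hN.pow _).smul_eq_zero, sub_eq_zero, Units.val_eq_one]

theorem exists_red (N : ℤ) (A : Fin m × Bool → Matrix (Fin d) (Fin d) ℤ)
    (hA : ∀ x : Fin m × Bool, A x * A (x.1, !x.2) = N ^ 2 • 1) (M : ℕ) (hM : IsCoprime N M) :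
    ∃ ψ : FreeGroup (Fin m) →* (Matrix (Fin d) (Fin d) (ZMod M))ˣ,
      ∀ w, ψ (FreeGroup.mk w) = 1 ↔ ∀ i j, (M : ℤ) ∣ Dw N A w i j := by
  obtain ⟨a, b, hab⟩ := hM
  have h1 : (N : ZMod M) * a = 1 := by
    have := congrArg (Int.cast : ℤ → ZMod M) hab
    simpa [mul_comm] using this
  have h2 : ∀ x : Fin m × Bool,
      ((a : ZMod M) • (Int.castRingHom (ZMod M)).mapMatrix (A x)) *
        ((a : ZMod M) • (Int.castRingHom (ZMod M)).mapMatrix (A (x.1, !x.2))) = 1 := by
    intro x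
    rw [smul_mul_smul_comm, ← map_mul, hA, map_zsmul, map_one, ← Int.cast_smul_eq_zsmul (ZMod M),
      smul_smul]
    have : (a : ZMod M) * a * ((N ^ 2 : ℤ) : ZMod M) = 1 := by
      push_cast
      linear_combination ((N : ZMod M) * a + 1) * h1
    rw [this, one_smul]
  let fq : Fin m → (Matrix (Fin d) (Fin d) (ZMod M))ˣ := fun i =>
    ⟨_, _, h2 (i, true), h2 (i, false)⟩
  refine ⟨FreeGroup.lift fq, fun w => ?_⟩
  rw [cast_iff N (IsUnit.of_mul_eq_one _ h1) A]
  · simp only [ZMod.intCast_zmod_eq_zero_iff_dvd]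
  · rintro ⟨i, _ | _⟩
    · have : (FreeGroup.lift fq (FreeGroup.mk [(i, false)])).val =
          (a : ZMod M) • (Int.castRingHom (ZMod M)).mapMatrix (A (i, false)) := by
        simp [FreeGroup.lift_mk, fq]
      rw [this, smul_smul, h1, one_smul]
    · have : (FreeGroup.lift fq (FreeGroup.mk [(i, true)])).val =
          (a : ZMod M) • (Int.castRingHom (ZMod M)).mapMatrix (A (i, true)) := by
        simp [FreeGroup.lift_mk, fq]
      rw [this, smul_smul, h1, one_smul]

theorem tors (P : Matrix (Fin d) (Fin d) ℤ) (c : ℤ) (p n : ℕ) (hp : p.Prime)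
    (hc : ¬ (p : ℤ) ∣ c) (hn : ¬ p ∣ n) (h1 : ∀ i j, (p : ℤ) ∣ (P - c • (1 : Matrix (Fin d) (Fin d) ℤ)) i j)
    (h2 : P ^ n = c ^ n • 1) : P - c • 1 = 0 := by
  haveI := Fact.mk hp
  have hcm : Commute P (c • (1 : Matrix (Fin d) (Fin d) ℤ)) :=
    (Commute.one_right P).smul_right c
  have h3 := hcm.geom_sum₂_mul n
  rw [h2, smul_pow, one_pow, sub_self] at h3
  set S := ∑ i ∈ Finset.range n, P ^ i * (c • (1 : Matrix (Fin d) (Fin d) ℤ)) ^ (n - 1 - i)
    with hS
  have e1 : (Int.castRingHom (ZMod p)).mapMatrix P = (c : ZMod p) • 1 := by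
    have : (Int.castRingHom (ZMod p)).mapMatrix (P - c • 1) = 0 := by
      ext i j
      exact (ZMod.intCast_zmod_eq_zero_iff_dvd _ _).2 (h1 i j)
    rwa [map_sub, sub_eq_zero, map_zsmul, map_one, ← Int.cast_smul_eq_zsmul (ZMod p)] at this
  have e2 : (Int.castRingHom (ZMod p)).mapMatrix S = ((n : ZMod p) * (c : ZMod p) ^ (n - 1)) • 1 := by
    rw [hS, map_sum, Finset.sum_congr rfl (g := fun _ => ((c : ZMod p) ^ (n - 1)) • 1)]
    · rw [Finset.sum_const, Finset.card_range, mul_smul, Nat.cast_smul_eq_nsmul]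
    · intro i hi
      rw [Finset.mem_range] at hi
      rw [map_mul, map_pow, map_pow, e1, map_zsmul, map_one, ← Int.cast_smul_eq_zsmul (ZMod p),
        ← pow_add, smul_pow, one_pow]
      congr 2
      omega
  have e3 : S.det ≠ 0 := by
    intro h
    have := (Int.castRingHom (ZMod p)).map_det S
    rw [h, e2, det_smul, det_one, mul_one, map_zero] at this
    have h4 := pow_eq_zero_iff' |>.1 this.symm
    rcases mul_eq_zero.1 h4.1 with h5 | h5
    · exact hn ((ZMod.natCast_eq_zero_iff _ _).1 h5)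
    · exact hc ((ZMod.intCast_zmod_eq_zero_iff_dvd _ _).1 (pow_eq_zero_iff'.1 h5).1)
  have := congrArg (fun B => S.adjugate * B) h3
  simp only [← mul_assoc, adjugate_mul, smul_mul_assoc, one_mul, mul_zero] at this
  exact (smul_eq_zero.1 this).resolve_left e3

theorem main (f : Fin m → GL (Fin d) ℚ) :
    Goal m fun w => FreeGroup.lift f (FreeGroup.mk w) = 1 := by
  classical
  set φ := FreeGroup.lift f with hφ
  obtain ⟨⟨N, hN⟩, hA⟩ := IsLocalization.exist_integer_multiples_of_finite (nonZeroDivisors ℤ)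
    (fun y : (Fin m × Bool) × Fin d × Fin d => (φ (FreeGroup.mk [y.1])).val y.2.1 y.2.2)
  have hN0 : N ≠ 0 := nonZeroDivisors.ne_zero hN
  choose A0 hA0 using hA
  let A : Fin m × Bool → Matrix (Fin d) (Fin d) ℤ := fun x => Matrix.of fun i j => A0 (x, i, j)
  have hA : ∀ x, (Int.castRingHom ℚ).mapMatrix (A x) = (N : ℚ) • (φ (FreeGroup.mk [x])).val := by
    intro x
    ext i j
    simpa [A] using hA0 (x, i, j)
  have hD : ∀ w, φ (FreeGroup.mk w) = 1 ↔ Dw N A w = 0 := by
    intro w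
    rw [cast_iff N (Ne.isUnit (by exact_mod_cast hN0)) A φ hA, ← Matrix.ext_iff]
    simp
  have hAA : ∀ x : Fin m × Bool, A x * A (x.1, !x.2) = N ^ 2 • 1 := by
    intro x
    have := (hD [x, (x.1, !x.2)]).1 (by rw [ev_cons, ev_flip]; simp)
    simpa [Dw, sub_eq_zero] using this
  let φ' := φ.rangeRestrict
  have hφ' : ∀ z, φ' z = 1 ↔ φ z = 1 := fun z => by
    rw [Subtype.ext_iff]; rfl
  have e : (fun w => φ (FreeGroup.mk w) = 1) = fun w => φ' (FreeGroup.mk w) = 1 := by
    funext w; rw [hφ']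
  rcases finite_or_infinite φ.range with hfin | hinf
  · rw [e]; exact goal_finite φ'
  obtain ⟨p, p1, p2⟩ := Nat.exists_infinite_primes (N.natAbs + 1)
  obtain ⟨q, q1, q2⟩ := Nat.exists_infinite_primes (p + 1)
  have hcop : ∀ r : ℕ, r.Prime → N.natAbs + 1 ≤ r → ¬ (r : ℤ) ∣ N := by
    intro r _ h1 h2
    have := Nat.le_of_dvd (Int.natAbs_pos.2 hN0) (Int.natCast_dvd.1 h2)
    omega
  obtain ⟨ψ, hψ⟩ := exists_red N A hAA (p * q) (by
    push_cast
    exact IsCoprime.mul_right
      ((Nat.prime_iff_prime_int.1 p2).irreducible.coprime_iff_not_dvd.2 (hcop p p2 p1)).symm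
      ((Nat.prime_iff_prime_int.1 q2).irreducible.coprime_iff_not_dvd.2
        (hcop q q2 (by omega))).symm)
  haveI : NeZero (p * q) := ⟨Nat.mul_ne_zero p2.ne_zero q2.ne_zero⟩
  have htor : ∀ r : ℕ, r.Prime → N.natAbs + 1 ≤ r → r ∣ p * q → ∀ (z : FreeGroup (Fin m)) (n : ℕ),
      ψ z = 1 → ¬ r ∣ n → φ z ^ n = 1 → φ z = 1 := by
    intro r r1 r2 r3 z n h1 h2 h3
    obtain ⟨w, rfl⟩ := mk_surj z
    rw [hD]
    refine tors _ _ r n r1 (fun h => hcop r r1 r2
      ((Nat.prime_iff_prime_int.1 r1).dvd_of_dvd_pow h)) h2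
      (fun i j => (Int.natCast_dvd_natCast.2 r3).trans ((hψ w).1 h1 i j)) ?_
    rw [← ev_rep, hD, Dw, sub_eq_zero] at h3
    simpa [← pow_mul, mul_comm] using h3
  obtain ⟨z, z1, z2⟩ : ∃ z, ψ z = 1 ∧ φ z ≠ 1 := by
    by_contra hh
    push Not at hh
    refine Set.infinite_coe_iff.1 hinf ((Set.finite_range fun y => φ (invFun ψ y)).subset ?_)
    rintro _ ⟨u, rfl⟩
    refine ⟨ψ u, ?_⟩
    have := hh ((invFun ψ (ψ u))⁻¹ * u) (by rw [map_mul, map_inv, invFun_eq (f := ψ) ⟨u, rfl⟩]; simp)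
    rw [map_mul, map_inv] at this
    exact inv_mul_eq_one.1 this
  have ha : ∀ e : ℤ, φ' z ^ e = 1 → e = 0 := by
    intro e he
    rw [← map_zpow, hφ', map_zpow] at he
    by_contra h0
    have h1 : IsOfFinOrder (φ z) := isOfFinOrder_iff_zpow_eq_one.2 ⟨e, h0, he⟩
    have h2 := h1.orderOf_pos
    by_cases h3 : p ∣ orderOf (φ z)
    · obtain ⟨t, ht⟩ := h3
      have h4 := htor q q2 (by omega) (dvd_mul_left _ _) (z ^ t) p (by simp [z1])
        (fun h => by have := Nat.le_of_dvd p2.pos h; omega)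
        (by rw [map_pow, ← pow_mul, mul_comm, ← ht, pow_orderOf_eq_one])
      rw [map_pow] at h4
      have t0 : 0 < t := by
        rcases Nat.eq_zero_or_pos t with rfl | h
        · omega
        · exact h
      have := Nat.le_of_dvd t0 (orderOf_dvd_of_pow_eq_one h4)
      have := p2.two_le
      nlinarith
    · exact z2 (htor p p2 p1 (dvd_mul_right _ _) z _ z1 h3 (pow_orderOf_eq_one _))
  let c : φ.range → φ.range ⧸ Subgroup.zpowers (φ' z) := fun g => QuotientGroup.mk g⁻¹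
  have hs : Surjective c := by
    intro s
    obtain ⟨g, rfl⟩ := QuotientGroup.mk_surjective s
    exact ⟨g⁻¹, by simp [c]⟩
  have hc : ∀ g g', c g = c g' ↔ ∃ e : ℤ, g = φ' z ^ e * g' := by
    intro g g'
    simp only [c, QuotientGroup.eq, inv_inv, Subgroup.mem_zpowers_iff]
    exact exists_congr fun e => by rw [eq_comm, mul_inv_eq_iff_eq_mul]
  rcases finite_or_infinite (φ.range ⧸ Subgroup.zpowers (φ' z)) with hfin | hinf2
  · rw [e]; exact goal_cyclic φ' _ ha c hs hc
  obtain ⟨l, hl, hg⟩ := growth_of φ' φ.rangeRestrict_surjective _ ha c hs hc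
  let L : Fin m × Bool → Matrix _ _ ℤ := fun x => Lm N (A x)
  obtain ⟨C, hC, hL⟩ : ∃ C : ℕ, 1 ≤ C ∧ ∀ x i, ∑ j, |L x i j| ≤ C := by
    refine ⟨1 + ∑ x, ∑ i, ∑ j, (L x i j).natAbs, by omega, fun x i => ?_⟩
    push_cast
    have q1 : ∑ j, |L x i j| ≤ ∑ i, ∑ j, |L x i j| :=
      Finset.single_le_sum (f := fun i => ∑ j, |L x i j|) (fun _ _ => by positivity)
        (Finset.mem_univ i)
    have q2 : ∑ i, ∑ j, |L x i j| ≤ ∑ x, ∑ i, ∑ j, |L x i j| :=
      Finset.single_le_sum (f := fun x => ∑ i, ∑ j, |L x i j|) (fun _ _ => by positivity)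
        (Finset.mem_univ x)
    linarith
  have hp2 : (2 : ℤ) ≤ p := by exact_mod_cast p2.two_le
  have he : ∀ i, 0 ≤ vec (d := d) 1 0 i ∧ vec (d := d) 1 0 i < p := by
    rintro (_ | i)
    · simp [vec]; omega
    · simp [vec]; omega
  have hP : ∀ k, 1 ≤ k → ∀ w, Pass (p : ℤ) L (vec 1 0) (fun a => ∀ i, i ≠ none → a i = 0) k w ↔
      ∀ i j, (p : ℤ) ^ k ∣ Dw N A w i j := by
    intro k hk w
    rw [pass_iff (by omega) L _ he _ k hk, Y_Lm]
    exact ⟨fun h i j => h (some (i, j)) (by simp), fun h o ho => by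
      rcases o with _ | ⟨i, j⟩
      · exact absurd rfl ho
      · exact h i j⟩
  have hex : ∀ k, 1 ≤ k → ∀ w : List (Fin m × Bool), C * w.length ≤ k →
      (∀ i j, (p : ℤ) ^ k ∣ Dw N A w i j) → φ (FreeGroup.mk w) = 1 := by
    intro k hk w h1 h2
    rcases Nat.eq_zero_or_pos w.length with h0 | h0
    · rw [List.length_eq_zero_iff.1 h0, ev_nil]
    rw [hD]
    ext i j
    refine Int.eq_zero_of_abs_lt_dvd (h2 i j) ?_
    have := Y_bound L C hL w (vec 1 0) 1 (by rintro (_ | i) <;> simp [vec]) (some (i, j))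
    rw [Y_Lm, one_mul] at this
    refine lt_of_le_of_lt this ?_
    have h3 : (C : ℤ) < 2 ^ C := by exact_mod_cast Nat.lt_two_pow_self
    calc (C : ℤ) ^ w.length < (2 ^ C) ^ w.length := pow_lt_pow_left₀ h3 (by positivity) h0.ne'
      _ = 2 ^ (C * w.length) := by rw [pow_mul]
      _ ≤ 2 ^ k := pow_le_pow_right₀ (by norm_num) h1
      _ ≤ (p : ℤ) ^ k := by gcongr
  obtain ⟨K, hK, hcnt⟩ := count_bound φ' l hl hg C hC
  refine goal_mod (p : ℤ) L (vec 1 0) (fun a => ∀ i, i ≠ none → a i = 0) (by omega) he _ C hC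
    (ev_nil φ) (fun w k hk h => ?_) (fun w k hk h1 h2 => hex k hk w h1 ((hP k hk w).1 h2)) K hK
    fun n k hk => ?_
  · rw [hP k hk, (hD w).1 h]
    simp
  · obtain ⟨χ, hχ⟩ := exists_red N A hAA (p ^ k) (by
      push_cast
      exact IsCoprime.pow_right
        ((Nat.prime_iff_prime_int.1 p2).irreducible.coprime_iff_not_dvd.2 (hcop p p2 p1)).symm)
    haveI : NeZero (p ^ k) := ⟨pow_ne_zero _ p2.ne_zero⟩
    push_cast at hχ
    have := hcnt _ χ k hk (fun w h1 h2 => (hφ' _).2 (hex k hk w h1 ((hχ w).1 h2))) n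
    simp only [hχ] at this
    simp only [hP k hk]
    convert this

end mat

end Pool.Agent.H120Z.WP
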