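import Mathlib

/-! Return probabilities of symmetric random walks on finite groups with quadratic growth
up to a given scale. -/

set_option autoImplicit false

namespace Pool.Agent.H120Z.WP

open Finset

section

variable {X Q : Type} [Fintype X] [Group Q] [Fintype Q]

/-- unnormalised transition operator -/
def T (h : X → Q) (f : Q → ℝ) : Q → ℝ := fun y => ∑ x, f (y * h x)

def nsq (f : Q → ℝ) : ℝ := ∑ y, f y ^ 2

/-- displacement energy -/
def dis (f : Q → ℝ) (z : Q) : ℝ := ∑ y, (f y - f (y * z)) ^ 2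

omit [Fintype X] in
theorem sum_mul_right (f : Q → ℝ) (z : Q) : ∑ y, f (y * z) = ∑ y, f y :=
  Equiv.sum_comp (Equiv.mulRight z) f

theorem T_adj (h : X → Q) (σ : X ≃ X) (hσ : ∀ x, h (σ x) = (h x)⁻¹) (f g : Q → ℝ) :
    ∑ y, f y * T h g y = ∑ y, T h f y * g y := by
  simp only [T, mul_sum, sum_mul]
  rw [sum_comm]
  conv_rhs => rw [sum_comm, ← Equiv.sum_comp σ]
  refine sum_congr rfl fun x _ => ?_
  rw [← sum_mul_right (fun y => f (y * h (σ x)) * g y) (h x)]
  simp [hσ]

theorem energy (h : X → Q) (f : Q → ℝ) :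
    ∑ a, ∑ b, ∑ y, (f (y * h a) - f (y * h b)) ^ 2 =
      2 * ((Fintype.card X : ℝ) ^ 2 * nsq f - nsq (T h f)) := by
  have e1 : ∀ a, ∑ y, f (y * h a) ^ 2 = nsq f := fun a => sum_mul_right (fun y => f y ^ 2) (h a)
  have e2 : nsq (T h f) = ∑ a, ∑ b, ∑ y, f (y * h a) * f (y * h b) := by
    simp only [nsq, T, sq, sum_mul_sum]
    rw [sum_comm]
    refine sum_congr rfl fun a _ => sum_comm
  have e3 : ∀ a b, ∑ y, (f (y * h a) - f (y * h b)) ^ 2 =
      2 * nsq f - 2 * ∑ y, f (y * h a) * f (y * h b) := by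
    intro a b
    simp only [sub_sq, sum_add_distrib, sum_sub_distrib, e1, mul_assoc, ← mul_sum]
    ring
  simp only [e3, e2, sum_sub_distrib, sum_const, card_univ, nsmul_eq_mul, ← mul_sum]
  ring

theorem dis_two (h : X → Q) (σ : X ≃ X) (hσ : ∀ x, h (σ x) = (h x)⁻¹) (f : Q → ℝ) (a b : X) :
    dis f (h a * h b) ≤ 2 * ((Fintype.card X : ℝ) ^ 2 * nsq f - nsq (T h f)) := by
  rw [← energy]
  have e : dis f (h a * h b) = ∑ y, (f (y * h (σ a)) - f (y * h b)) ^ 2 := by
    rw [dis, ← sum_mul_right (fun y => (f y - f (y * (h a * h b))) ^ 2) (h (σ a))]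
    simp [hσ, mul_assoc]
  rw [e]
  have h1 : ∑ y, (f (y * h (σ a)) - f (y * h b)) ^ 2 ≤
      ∑ b, ∑ y, (f (y * h (σ a)) - f (y * h b)) ^ 2 :=
    single_le_sum (f := fun b => ∑ y, (f (y * h (σ a)) - f (y * h b)) ^ 2)
      (fun _ _ => by positivity) (mem_univ b)
  exact h1.trans (single_le_sum (f := fun a => ∑ b, ∑ y, (f (y * h a) - f (y * h b)) ^ 2)
      (fun _ _ => by positivity) (mem_univ (σ a)))

omit [Fintype X] in
theorem dis_mul (f : Q → ℝ) (s z : Q) (r : ℕ) (D : ℝ) (hD : 0 ≤ D) (h1 : dis f s ≤ D)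
    (h2 : dis f z ≤ (r : ℝ) ^ 2 * D) : dis f (s * z) ≤ ((r + 1 : ℕ) : ℝ) ^ 2 * D := by
  have e : dis f z = ∑ y, (f (y * s) - f (y * (s * z))) ^ 2 := by
    rw [dis, ← sum_mul_right (fun y => (f y - f (y * z)) ^ 2) s]
    simp [mul_assoc]
  rcases Nat.eq_zero_or_pos r with rfl | hr
  · have h0 : ∀ y, f (y * s) = f (y * (s * z)) := by
      intro y
      have : (f (y * s) - f (y * (s * z))) ^ 2 ≤ dis f z := by
        rw [e]
        exact single_le_sum (f := fun y => (f (y * s) - f (y * (s * z))) ^ 2)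
          (fun _ _ => by positivity) (mem_univ y)
      have h3 : (f (y * s) - f (y * (s * z))) ^ 2 ≤ 0 := by simpa using this.trans h2
      have := pow_eq_zero_iff (two_ne_zero) |>.1 (le_antisymm h3 (by positivity))
      linarith
    have : dis f (s * z) = dis f s := by simp only [dis, h0]
    simpa [this] using h1
  · have hr' : (0 : ℝ) < r := by exact_mod_cast hr
    have key : (r : ℝ) * dis f (s * z) ≤ r * (r + 1) * dis f s + (r + 1) * dis f z := by
      rw [e, dis, dis, mul_sum, mul_sum, mul_sum, ← sum_add_distrib]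
      refine sum_le_sum fun y _ => ?_
      have := sq_nonneg (r * (f y - f (y * s)) - (f (y * s) - f (y * (s * z))))
      nlinarith
    have : (r : ℝ) * dis f (s * z) ≤ r * (((r + 1 : ℕ) : ℝ) ^ 2 * D) := by
      push_cast
      have a1 : (r : ℝ) * (r + 1) * dis f s ≤ r * (r + 1) * D := by gcongr
      have a2 : ((r : ℝ) + 1) * dis f z ≤ (r + 1) * ((r : ℝ) ^ 2 * D) := by gcongr
      nlinarith
    exact le_of_mul_le_mul_left this hr'

theorem dis_word (h : X → Q) (σ : X ≃ X) (hσ : ∀ x, h (σ x) = (h x)⁻¹) (f : Q → ℝ) :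
    ∀ (r : ℕ) (w : List X), w.length = 2 * r → dis f (w.map h).prod ≤
      (r : ℝ) ^ 2 * (2 * ((Fintype.card X : ℝ) ^ 2 * nsq f - nsq (T h f))) := by
  have hD : 0 ≤ 2 * ((Fintype.card X : ℝ) ^ 2 * nsq f - nsq (T h f)) := by
    rw [← energy]; positivity
  intro r
  induction r with
  | zero =>
    intro w hw
    have : w = [] := List.length_eq_zero_iff.1 hw
    subst this
    simp [dis]
  | succ r ih =>
    intro w hw
    match w, hw with
    | a :: b :: w, hw =>
      have := dis_mul f (h a * h b) (w.map h).prod r _ hD (dis_two h σ hσ f a b)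
        (ih w (by simp at hw; omega))
      simpa [mul_assoc] using this

omit [Fintype X] in
theorem ball_ineq (f : Q → ℝ) (hf : ∀ y, 0 ≤ f y) (B : Finset Q) (D : ℝ)
    (hB : ∀ z ∈ B, dis f z ≤ D) : 2 * B.card * nsq f ≤ B.card * D + 2 * (∑ y, f y) ^ 2 := by
  classical
  have e : ∀ z, dis f z = 2 * nsq f - 2 * ∑ y, f y * f (y * z) := by
    intro z
    have e1 : ∑ y, f (y * z) ^ 2 = nsq f := sum_mul_right (fun y => f y ^ 2) z
    simp only [dis, sub_sq, sum_add_distrib, sum_sub_distrib, e1, mul_assoc, ← mul_sum]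
    simp only [nsq]; ring
  have h1 : ∑ z ∈ B, dis f z ≤ B.card * D := by
    simpa using sum_le_card_nsmul B _ D hB
  have h2 : ∑ z ∈ B, ∑ y, f y * f (y * z) ≤ (∑ y, f y) ^ 2 := by
    rw [sum_comm, sq, sum_mul]
    refine sum_le_sum fun y _ => ?_
    rw [← mul_sum]
    refine mul_le_mul_of_nonneg_left ?_ (hf y)
    rw [← Equiv.sum_comp (Equiv.mulLeft y) f]
    exact sum_le_sum_of_subset_of_nonneg (subset_univ _) fun _ _ _ => hf _
  simp only [e, sum_sub_distrib, sum_const, nsmul_eq_mul, ← mul_sum] at h1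
  nlinarith

end

/-- the real-number recursion -/
theorem rec_bound (u : ℕ → ℝ) (D c : ℝ) (L : ℕ) (hD : 1 ≤ D) (hc : 1 ≤ c) (h0 : ∀ n, 0 ≤ u n)
    (h1 : u 0 ≤ 1) (hm : ∀ n, u (n + 1) ≤ u n)
    (hr : ∀ n (r : ℕ), 1 ≤ r → r ≤ L → u n ≤ D * r ^ 2 * (u n - u (n + 1)) + c / r ^ 2)
    (hL : 1 ≤ L) (n : ℕ) : u n ≤ 16 * D * c / (n + 1) ∨ u n ≤ 2 * c / L ^ 2 := by
  have hu1 : ∀ n, u n ≤ 1 := by
    intro n
    induction n with
    | zero => exact h1
    | succ n ih => exact (hm n).trans ih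
  have hL' : (0 : ℝ) < L := by exact_mod_cast hL
  induction n with
  | zero =>
    left
    simp only [Nat.cast_zero, zero_add, div_one]
    nlinarith
  | succ n ih =>
    by_cases h2 : u n ≤ 2 * c / L ^ 2
    · right; exact (hm n).trans h2
    · left
      have ih := ih.resolve_right h2
      push Not at h2
      have hp : 0 < u n := lt_trans (by positivity) h2
      set t := Real.sqrt (2 * c / u n) with ht
      have ht2 : t ^ 2 = 2 * c / u n := Real.sq_sqrt (by positivity)
      have ht2' : t ^ 2 * u n = 2 * c := by rw [ht2]; field_simp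
      have ht0 : 0 ≤ t := Real.sqrt_nonneg _
      have ht1 : 1 ≤ t := by
        by_contra hh
        push Not at hh
        have : t ^ 2 ≤ 1 := by nlinarith
        have := hu1 n
        nlinarith
      have htL : t ≤ L := by
        by_contra hh
        push Not at hh
        have : (L : ℝ) ^ 2 < t ^ 2 := by gcongr
        rw [div_lt_iff₀ (by positivity)] at h2
        nlinarith
      have r1 : t ≤ ⌈t⌉₊ := Nat.le_ceil t
      have r2 : (⌈t⌉₊ : ℝ) ≤ 2 * t := by
        have := Nat.ceil_lt_add_one ht0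
        linarith
      have r3 : ⌈t⌉₊ ≤ L := Nat.ceil_le.2 htL
      have r4 : 1 ≤ ⌈t⌉₊ := Nat.one_le_iff_ne_zero.2 (by
        intro h; rw [h] at r1; simp at r1; linarith)
      have := hr n _ r4 r3
      set r : ℝ := (⌈t⌉₊ : ℝ) with hrdef
      have hr0 : 0 < r := by linarith
      have a1 : c / r ^ 2 ≤ u n / 2 := by
        rw [div_le_iff₀ (by positivity)]
        have : t ^ 2 ≤ r ^ 2 := by gcongr
        nlinarith
      have a2 : r ^ 2 * u n ≤ 8 * c := by
        have : r ^ 2 ≤ (2 * t) ^ 2 := by gcongr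
        nlinarith
      have hd : 0 ≤ u n - u (n + 1) := sub_nonneg.2 (hm n)
      have a3 : u n * u n ≤ 16 * D * c * (u n - u (n + 1)) := by
        have b1 : u n / 2 ≤ D * r ^ 2 * (u n - u (n + 1)) := by linarith
        have b2 : u n * (u n / 2) ≤ u n * (D * r ^ 2 * (u n - u (n + 1))) := by gcongr
        have b3 : D * (u n - u (n + 1)) * (r ^ 2 * u n) ≤ D * (u n - u (n + 1)) * (8 * c) := by
          gcongr
        nlinarith
      set K := 16 * D * c with hK
      have hK1 : 1 ≤ K := by nlinarith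
      rw [le_div_iff₀ (by positivity)] at ih ⊢
      push_cast
      have b1 : u n * (n + 1 + 1) ≤ K + u n := by linarith
      have b2 : K * u (n + 1) ≤ u n * (K - u n) := by nlinarith
      have b3 : 0 ≤ K - u n := by have := hu1 n; linarith
      have b4 : K * (u (n + 1) * (n + 1 + 1)) ≤ K * K := by
        calc K * (u (n + 1) * (n + 1 + 1)) = K * u (n + 1) * (n + 1 + 1) := by ring
          _ ≤ u n * (K - u n) * (n + 1 + 1) := by gcongr
          _ = (K - u n) * (u n * (n + 1 + 1)) := by ring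
          _ ≤ (K - u n) * (K + u n) := by gcongr
          _ ≤ K * K := by nlinarith
      exact le_of_mul_le_mul_left b4 (by linarith)

section

variable {X Q : Type} [Fintype X] [Group Q] [Fintype Q] [DecidableEq Q]

def cnt (h : X → Q) (n : ℕ) : Q → ℝ := (T h)^[n] fun y => if y = 1 then 1 else 0

theorem cnt_succ (h : X → Q) (n : ℕ) : cnt h (n + 1) = T h (cnt h n) :=
  Function.iterate_succ_apply' _ _ _

omit [Fintype Q] in
theorem cnt_eq (h : X → Q) (n : ℕ) : ∀ y, cnt h n y =
    ∑ v : Fin n → X, if y * ((List.ofFn v).map h).prod = 1 then (1 : ℝ) else 0 := by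
  induction n with
  | zero => intro y; simp [cnt]
  | succ n ih =>
    intro y
    rw [cnt, Function.iterate_succ_apply']
    change ∑ x, cnt h n (y * h x) = _
    rw [← (Fin.consEquiv fun _ : Fin (n + 1) => X).sum_comp, Fintype.sum_prod_type]
    refine sum_congr rfl fun x _ => ?_
    rw [ih]
    refine sum_congr rfl fun v _ => ?_
    simp [Fin.consEquiv, List.ofFn_succ, mul_assoc]

omit [Fintype Q] in
theorem cnt_nonneg (h : X → Q) (n : ℕ) (y : Q) : 0 ≤ cnt h n y := by
  rw [cnt_eq]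
  exact sum_nonneg fun _ _ => by split_ifs <;> norm_num

theorem cnt_sum (h : X → Q) (n : ℕ) : ∑ y, cnt h n y = (Fintype.card X : ℝ) ^ n := by
  induction n with
  | zero => simp [cnt]
  | succ n ih =>
    rw [cnt_succ]
    simp only [T]
    rw [sum_comm]
    simp only [sum_mul_right, ih, sum_const, card_univ, nsmul_eq_mul]
    ring

theorem cnt_add (h : X → Q) (σ : X ≃ X) (hσ : ∀ x, h (σ x) = (h x)⁻¹) (a : ℕ) :
    ∀ b, cnt h (a + b) 1 = ∑ y, cnt h a y * cnt h b y := by
  induction a with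
  | zero => intro b; simp [cnt]
  | succ a ih =>
    intro b
    rw [show a + 1 + b = a + (b + 1) by ring, ih, cnt_succ h b, T_adj h σ hσ, ← cnt_succ]

theorem nash (h : X → Q) (σ : X ≃ X) (hσ : ∀ x, h (σ x) = (h x)⁻¹) [Nonempty X] (c : ℝ)
    (hc : 1 ≤ c) (L : ℕ) (hL : 1 ≤ L)
    (hg : ∀ r : ℕ, 1 ≤ r → r ≤ L → ∃ B : Finset Q, (r : ℝ) ^ 2 ≤ c * B.card ∧
      ∀ z ∈ B, ∃ w : List X, w.length = 2 * r ∧ (w.map h).prod = z) (n : ℕ) :
    (∑ v : Fin n → X, if ((List.ofFn v).map h).prod = 1 then (1 : ℝ) else 0) ≤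
      (Fintype.card X : ℝ) ^ n *
        (32 * (Fintype.card X : ℝ) ^ 2 * c / (n + 1) + 2 * c / L ^ 2) := by
  set q : ℝ := (Fintype.card X : ℝ) with hq
  have hq1 : 1 ≤ q := by rw [hq]; exact_mod_cast Fintype.card_pos
  have hq0 : 0 < q := by linarith
  let u : ℕ → ℝ := fun n => nsq (cnt h n) / q ^ (2 * n)
  have hE : ∀ n, q ^ 2 * nsq (cnt h n) - nsq (T h (cnt h n)) =
      q ^ (2 * (n + 1)) * (u n - u (n + 1)) := by
    intro n
    simp only [u, cnt_succ]
    field_simp
    ring
  have hm : ∀ n, u (n + 1) ≤ u n := by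
    intro n
    have h1 := energy h (cnt h n)
    rw [hE] at h1
    have h2 : 0 ≤ 2 * (q ^ (2 * (n + 1)) * (u n - u (n + 1))) := by rw [← h1]; positivity
    have h3 : 0 < q ^ (2 * (n + 1)) := by positivity
    by_contra hh
    push Not at hh
    nlinarith
  have h0 : ∀ n, 0 ≤ u n := fun n => by simp only [u, nsq]; positivity
  have key := rec_bound u (q ^ 2) c L (by nlinarith) hc h0 (by simp [u, nsq, cnt]) hm (by
    intro n r h1 h2
    obtain ⟨B, hB1, hB2⟩ := hg r h1 h2
    have := ball_ineq (cnt h n) (cnt_nonneg h n) B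
      ((r : ℝ) ^ 2 * (2 * (q ^ 2 * nsq (cnt h n) - nsq (T h (cnt h n))))) (by
        intro z hz
        obtain ⟨w, hw, rfl⟩ := hB2 z hz
        exact dis_word h σ hσ _ r w hw)
    rw [hE, cnt_sum, ← hq] at this
    have hr0 : (0 : ℝ) < r := by exact_mod_cast h1
    have hB0 : (0 : ℝ) < B.card := by
      by_contra hh
      push Not at hh
      have : (0 : ℝ) < (r : ℝ) ^ 2 := by positivity
      nlinarith
    have e : nsq (cnt h n) = u n * q ^ (2 * n) := by simp only [u]; field_simp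
    rw [e] at this
    have a1 : (B.card : ℝ) * u n ≤ B.card * (q ^ 2 * r ^ 2 * (u n - u (n + 1))) + 1 := by
      have h3 : 0 < q ^ (2 * n) := by positivity
      refine le_of_mul_le_mul_left ?_ (show 0 < 2 * q ^ (2 * n) by positivity)
      calc 2 * q ^ (2 * n) * ((B.card : ℝ) * u n) = 2 * B.card * (u n * q ^ (2 * n)) := by ring
        _ ≤ _ := this
        _ = _ := by ring
    have a2 : (1 : ℝ) ≤ B.card * (c / r ^ 2) := by
      rw [mul_div_assoc', le_div_iff₀ (by positivity)]
      linarith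
    refine le_of_mul_le_mul_left ?_ hB0
    linarith) hL
  have hfin : cnt h n 1 ≤ q ^ n * u (n / 2) := by
    have e1 : ∀ a, nsq (cnt h a) = u a * q ^ (2 * a) := fun a => by simp only [u]; field_simp
    rcases Nat.even_or_odd' n with ⟨j, rfl | rfl⟩
    · rw [show 2 * j / 2 = j by omega, two_mul, cnt_add h σ hσ, ← two_mul, mul_comm, ← e1]
      simp [nsq, sq]
    · rw [show (2 * j + 1) / 2 = j by omega, show 2 * j + 1 = j + (j + 1) by ring,
        cnt_add h σ hσ]
      have b1 : 2 * q * ∑ y, cnt h j y * cnt h (j + 1) y ≤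
          q ^ 2 * nsq (cnt h j) + nsq (cnt h (j + 1)) := by
        simp only [nsq, mul_sum, ← sum_add_distrib]
        refine sum_le_sum fun y _ => ?_
        nlinarith [sq_nonneg (q * cnt h j y - cnt h (j + 1) y)]
      rw [e1, e1] at b1
      have b2 : u (j + 1) * q ^ (2 * (j + 1)) ≤ u j * q ^ (2 * (j + 1)) := by
        gcongr; exact hm j
      refine le_of_mul_le_mul_left ?_ (show 0 < 2 * q by positivity)
      calc _ ≤ _ := b1
        _ ≤ q ^ 2 * (u j * q ^ (2 * j)) + u j * q ^ (2 * (j + 1)) := by linarith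
        _ = _ := by ring
  have := cnt_eq h n 1
  simp only [one_mul] at this
  rw [← this]
  refine hfin.trans (mul_le_mul_of_nonneg_left ?_ (by positivity))
  have p1 : 0 ≤ 32 * q ^ 2 * c / (n + 1) := by positivity
  have p2 : 0 ≤ 2 * c / L ^ 2 := by positivity
  rcases key (n / 2) with k | k
  · have : 16 * q ^ 2 * c / ((n / 2 : ℕ) + 1) ≤ 32 * q ^ 2 * c / (n + 1) := by
      rw [div_le_div_iff₀ (by positivity) (by positivity)]
      have : (n : ℝ) + 1 ≤ 2 * ((n / 2 : ℕ) + 1) := by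
        have : n + 1 ≤ 2 * (n / 2 + 1) := by omega
        exact_mod_cast this
      have p3 : 0 ≤ 16 * q ^ 2 * c := by positivity
      nlinarith
    linarith
  · linarith

end

end Pool.Agent.H120Z.WP
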